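import Pool.Agent.Helper42.RH.Hat

open MeasureTheory Set
open scoped BigOperators

namespace Pool.Agent.Helper42.RH

/-- the spline kernel with coefficients `c 0, …, c (n-1)` -/
noncomputable def Ker (n : ℕ) (c : ℕ → ℝ) (τ : ℝ) : ℝ :=
  ∑ i ∈ Finset.range n, ∑ j ∈ Finset.range n, c i * c j * B3 (τ + i - j)

/-- autocorrelation of the coefficients -/
noncomputable def Rc (n : ℕ) (c : ℕ → ℝ) (m : ℕ) : ℝ := ∑ i ∈ Finset.range n, c i * c (i + m)

lemma Ker_even (n : ℕ) (c : ℕ → ℝ) (τ : ℝ) : Ker n c (-τ) = Ker n c τ := by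
  unfold Ker
  rw [Finset.sum_comm]
  refine Finset.sum_congr rfl fun i _ => Finset.sum_congr rfl fun j _ => ?_
  rw [← B3_even]
  rw [mul_comm (c j) (c i)]
  congr 2
  ring

/-- positive definiteness, in the quantitative form -/
theorem Ker_lower (n : ℕ) (c : ℕ → ℝ) (S : Finset ℝ) (a : ℝ → ℝ) (α β lam : ℝ) (hαβ : α ≤ β)
    (ha : ∀ x ∈ S, α ≤ a x ∧ a x ≤ β) :
    2 * lam * (S.card * ∑ i ∈ Finset.range n, c i) - lam ^ 2 * (β - α + n + 2) ≤
      ∑ x ∈ S, ∑ y ∈ S, Ker n c (a x - a y) := by
  have h := quad_lower (S ×ˢ Finset.range n) (fun p => c p.2) (fun p => a p.1 + p.2) α (β + n) lam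
    (by have : (0 : ℝ) ≤ n := Nat.cast_nonneg n
        linarith)
    (by
      rintro ⟨x, i⟩ hp
      rw [Finset.mem_product, Finset.mem_range] at hp
      obtain ⟨h1, h2⟩ := ha x hp.1
      have h3 : (i : ℝ) ≤ n := by exact_mod_cast hp.2.le
      have h4 : (0 : ℝ) ≤ i := Nat.cast_nonneg i
      constructor <;> simp only <;> linarith)
  rw [Finset.sum_product, Finset.sum_product] at h
  simp only [Finset.sum_product, Finset.sum_const, nsmul_eq_mul] at h
  have e : ∑ x ∈ S, ∑ y ∈ S, Ker n c (a x - a y) =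
      ∑ x ∈ S, ∑ i ∈ Finset.range n, ∑ y ∈ S, ∑ j ∈ Finset.range n,
        c i * c j * B3 (a x + i - (a y + j)) := by
    refine Finset.sum_congr rfl fun x _ => ?_
    rw [Finset.sum_comm]
    refine Finset.sum_congr rfl fun y _ => ?_
    unfold Ker
    refine Finset.sum_congr rfl fun i _ => Finset.sum_congr rfl fun j _ => ?_
    congr 2
    ring
  rw [e]
  refine le_trans (le_of_eq ?_) h
  ring

/-- the kernel in a cell -/
theorem Ker_cell (n : ℕ) (c : ℕ → ℝ) (hc : ∀ i, n ≤ i → c i = 0) (q : ℕ) (hq : 1 ≤ q) (t : ℝ)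
    (ht0 : 0 ≤ t) (ht1 : t ≤ 1) :
    Ker n c (q + t) = (Rc n c (q - 1) * (1 - t) ^ 3 + Rc n c q * (4 - 6 * t ^ 2 + 3 * t ^ 3) +
      Rc n c (q + 1) * (1 + 3 * t + 3 * t ^ 2 - 3 * t ^ 3) + Rc n c (q + 2) * t ^ 3) / 6 := by
  have key : ∀ i ∈ Finset.range n, ∑ j ∈ Finset.range n, c i * c j * B3 (q + t + i - j) =
      (c i * c (i + (q - 1)) * (1 - t) ^ 3 + c i * c (i + q) * (4 - 6 * t ^ 2 + 3 * t ^ 3) +
      c i * c (i + (q + 1)) * (1 + 3 * t + 3 * t ^ 2 - 3 * t ^ 3) + c i * c (i + (q + 2)) * t ^ 3) / 6 := by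
    intro i _
    have h1 : ∑ j ∈ Finset.range n, c i * c j * B3 (q + t + i - j) =
        ∑ j ∈ Finset.range (n + (i + q + 3)), c i * c j * B3 (q + t + i - j) := by
      apply Finset.sum_subset
      · intro j hj
        rw [Finset.mem_range] at hj ⊢
        omega
      · intro j _ hj
        rw [Finset.mem_range, not_lt] at hj
        rw [hc j hj]; ring
    have h2 : ∑ j ∈ Finset.range (n + (i + q + 3)), c i * c j * B3 (q + t + i - j) =
        ∑ j ∈ ({i + (q - 1), i + q, i + (q + 1), i + (q + 2)} : Finset ℕ),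
          c i * c j * B3 (q + t + i - j) := by
      symm
      apply Finset.sum_subset
      · intro j hj
        simp only [Finset.mem_insert, Finset.mem_singleton] at hj
        rw [Finset.mem_range]
        omega
      · intro j _ hj
        simp only [Finset.mem_insert, Finset.mem_singleton, not_or] at hj
        rw [B3_large, mul_zero]
        have h3 : j + 2 ≤ i + q ∨ i + q + 3 ≤ j := by omega
        rcases h3 with h3 | h3
        · have h4 : (j : ℝ) + 2 ≤ i + q := by exact_mod_cast h3
          rw [abs_of_nonneg (by linarith)]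
          linarith
        · have h4 : (i : ℝ) + q + 3 ≤ j := by exact_mod_cast h3
          rw [abs_of_nonpos (by linarith)]
          linarith
    rw [h1, h2]
    rw [Finset.sum_insert, Finset.sum_insert, Finset.sum_insert, Finset.sum_singleton]
    · have hq' : ((q - 1 : ℕ) : ℝ) = q - 1 := by
        rw [Nat.cast_sub hq, Nat.cast_one]
      have b0 : B3 (q + t + i - ((i + (q - 1) : ℕ) : ℝ)) = (1 - t) ^ 3 / 6 := by
        push_cast
        rw [hq', show (q : ℝ) + t + i - (i + (q - 1)) = 1 + t by ring, B3_mid (by linarith) (by linarith)]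
        ring
      have b1 : B3 (q + t + i - ((i + q : ℕ) : ℝ)) = (4 - 6 * t ^ 2 + 3 * t ^ 3) / 6 := by
        push_cast
        rw [show (q : ℝ) + t + i - (i + q) = t by ring, B3_small ht0 ht1]
      have b2 : B3 (q + t + i - ((i + (q + 1) : ℕ) : ℝ)) =
          (1 + 3 * t + 3 * t ^ 2 - 3 * t ^ 3) / 6 := by
        push_cast
        rw [show (q : ℝ) + t + i - (i + (q + 1)) = -(1 - t) by ring, B3_even,
          B3_small (by linarith) (by linarith)]
        ring
      have b3 : B3 (q + t + i - ((i + (q + 2) : ℕ) : ℝ)) = t ^ 3 / 6 := by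
        push_cast
        rw [show (q : ℝ) + t + i - (i + (q + 2)) = -(2 - t) by ring, B3_even,
          B3_mid (by linarith) (by linarith)]
        ring
      rw [b0, b1, b2, b3]
      ring
    · simp only [Finset.mem_singleton]; omega
    · simp only [Finset.mem_insert, Finset.mem_singleton]; omega
    · simp only [Finset.mem_insert, Finset.mem_singleton]; omega
  unfold Ker
  rw [Finset.sum_congr rfl key]
  unfold Rc
  rw [← Finset.sum_div, Finset.sum_add_distrib, Finset.sum_add_distrib, Finset.sum_add_distrib,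
    Finset.sum_mul, Finset.sum_mul, Finset.sum_mul, Finset.sum_mul]

/-- the kernel vanishes far away -/
theorem Ker_far (n : ℕ) (c : ℕ → ℝ) (τ : ℝ) (h : (n : ℝ) + 1 ≤ |τ|) : Ker n c τ = 0 := by
  unfold Ker
  refine Finset.sum_eq_zero fun i hi => Finset.sum_eq_zero fun j hj => ?_
  rw [Finset.mem_range] at hi hj
  have hi' : (i : ℝ) + 1 ≤ n := by exact_mod_cast hi
  have hj' : (j : ℝ) + 1 ≤ n := by exact_mod_cast hj
  have hi0 : (0 : ℝ) ≤ i := Nat.cast_nonneg i
  have hj0 : (0 : ℝ) ≤ j := Nat.cast_nonneg j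
  rw [B3_large, mul_zero]
  rcases abs_cases τ with h' | h' <;> rcases abs_cases (τ + i - j) with h'' | h'' <;> linarith

/-- the value at the origin -/
theorem Ker_zero (n : ℕ) (c : ℕ → ℝ) (hc : ∀ i, n ≤ i → c i = 0) :
    Ker n c 0 = (4 * Rc n c 0 + 2 * Rc n c 1) / 6 := by
  have key : ∀ i ∈ Finset.range n, ∑ j ∈ Finset.range n, c i * c j * B3 (0 + i - j) =
      (4 * (c i * c (i + 0)) + c i * c (i + 1) + (if i = 0 then 0 else c i * c (i - 1))) / 6 := by
    intro i hi
    rw [Finset.mem_range] at hi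
    have h1 : ∑ j ∈ Finset.range n, c i * c j * B3 (0 + i - j) =
        ∑ j ∈ Finset.range (n + 1), c i * c j * B3 (0 + i - j) := by
      rw [Finset.sum_range_succ, hc n le_rfl]; ring
    have h2 : ∑ j ∈ Finset.range (n + 1), c i * c j * B3 (0 + i - j) =
        ∑ j ∈ (if i = 0 then ({0, 1} : Finset ℕ) else {i, i + 1, i - 1}),
          c i * c j * B3 (0 + i - j) := by
      symm
      apply Finset.sum_subset
      · intro j hj
        rw [Finset.mem_range]
        split_ifs at hj <;> simp only [Finset.mem_insert, Finset.mem_singleton] at hj <;> omega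
      · intro j _ hj
        rw [B3_large, mul_zero]
        have h3 : j + 2 ≤ i ∨ i + 2 ≤ j := by
          split_ifs at hj <;> simp only [Finset.mem_insert, Finset.mem_singleton, not_or] at hj <;> omega
        rcases h3 with h3 | h3
        · have h4 : (j : ℝ) + 2 ≤ i := by exact_mod_cast h3
          rw [abs_of_nonneg (by linarith)]
          linarith
        · have h4 : (i : ℝ) + 2 ≤ j := by exact_mod_cast h3
          rw [abs_of_nonpos (by linarith)]
          linarith
    rw [h1, h2]
    have z0 : B3 0 = 4 / 6 := by rw [B3_small le_rfl (by norm_num)]; norm_num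
    have z1 : B3 1 = 1 / 6 := by rw [B3_small (by norm_num) le_rfl]; norm_num
    have z2 : B3 (-1) = 1 / 6 := by rw [B3_even, z1]
    by_cases h0 : i = 0
    · subst h0
      rw [if_pos rfl, if_pos rfl, Finset.sum_insert (by simp), Finset.sum_singleton]
      simp only [Nat.cast_zero, Nat.cast_one, add_zero, sub_zero, zero_add]
      rw [show (0 : ℝ) - 1 = -1 by ring, z0, z2]
      ring
    · rw [if_neg h0, if_neg h0, Finset.sum_insert, Finset.sum_insert, Finset.sum_singleton]
      · have hi1 : ((i - 1 : ℕ) : ℝ) = i - 1 := by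
          rw [Nat.cast_sub (by omega), Nat.cast_one]
        rw [hi1]
        push_cast
        rw [show (0 : ℝ) + i - i = 0 by ring, show (0 : ℝ) + i - (i + 1) = -1 by ring,
          show (0 : ℝ) + i - (i - 1) = 1 by ring, z0, z1, z2]
        simp only [add_zero]
        ring
      · simp only [Finset.mem_singleton]; omega
      · simp only [Finset.mem_insert, Finset.mem_singleton]; omega
  unfold Ker
  rw [Finset.sum_congr rfl key]
  unfold Rc
  rw [← Finset.sum_div, Finset.sum_add_distrib, Finset.sum_add_distrib, ← Finset.mul_sum]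
  have hs : ∑ i ∈ Finset.range n, (if i = 0 then 0 else c i * c (i - 1)) =
      ∑ i ∈ Finset.range n, c i * c (i + 1) := by
    cases n with
    | zero => simp
    | succ m =>
      rw [Finset.sum_range_succ', Finset.sum_range_succ, hc (m + 1) le_rfl]
      simp only [Nat.add_eq_zero_iff, one_ne_zero, and_false, if_false, if_true, add_zero,
        Nat.add_sub_cancel, mul_zero]
      refine Finset.sum_congr rfl fun i _ => ?_
      ring
  rw [hs]
  congr 1
  ring

end Pool.Agent.Helper42.RH
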