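import Pool.Graph.R_seed8.H370R2.Expl2
import Pool.Agent.Helper42.RH.Ker

open Complex Filter Topology Set MeasureTheory
open scoped BigOperators ComplexConjugate

namespace Pool.Agent.Helper42.RH

open H370

/-- test matrices on two disjoint sets can be combined -/
lemma union_form (Λ : ℝ) (S S' : Finset ℝ) (hd : Disjoint S S') (Y Y' : ℝ → ℝ → ℝ)
    (h : ∀ v : ℝ → ℂ, ∑ x ∈ S, ∑ y ∈ S, Y x y * (conj (v x) * v y).re ≤ ∑ x ∈ S, ‖v x‖ ^ 2)
    (h' : ∀ v : ℝ → ℂ, ∑ x ∈ S', ∑ y ∈ S', Y' x y * (conj (v x) * v y).re ≤ ∑ x ∈ S', ‖v x‖ ^ 2) :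
    ∃ Z : ℝ → ℝ → ℝ,
      (∀ v : ℝ → ℂ, ∑ x ∈ S ∪ S', ∑ y ∈ S ∪ S', Z x y * (conj (v x) * v y).re ≤
        ∑ x ∈ S ∪ S', ‖v x‖ ^ 2) ∧
      YT Λ (S ∪ S') Z = YT Λ S Y + YT Λ S' Y' := by
  classical
  set Z : ℝ → ℝ → ℝ := fun x y => if x ∈ S then (if y ∈ S then Y x y else 0) else
    (if y ∈ S then 0 else Y' x y) with hZ
  have hn : ∀ x ∈ S', x ∉ S := fun x hx hx' => Finset.disjoint_left.mp hd hx' hx
  have key : ∀ g : ℝ → ℝ → ℝ → ℝ, (∀ x y, g x y 0 = 0) →
      ∑ x ∈ S ∪ S', ∑ y ∈ S ∪ S', g x y (Z x y) =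
        ∑ x ∈ S, ∑ y ∈ S, g x y (Y x y) + ∑ x ∈ S', ∑ y ∈ S', g x y (Y' x y) := by
    intro g hg
    rw [Finset.sum_union hd]
    congr 1
    · refine Finset.sum_congr rfl fun x hx => ?_
      rw [Finset.sum_union hd]
      have e2 : ∑ y ∈ S', g x y (Z x y) = 0 := by
        refine Finset.sum_eq_zero fun y hy => ?_
        simp only [hZ]
        rw [if_pos hx, if_neg (hn y hy), hg]
      rw [e2, add_zero]
      refine Finset.sum_congr rfl fun y hy => ?_
      simp only [hZ]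
      rw [if_pos hx, if_pos hy]
    · refine Finset.sum_congr rfl fun x hx => ?_
      rw [Finset.sum_union hd]
      have e2 : ∑ y ∈ S, g x y (Z x y) = 0 := by
        refine Finset.sum_eq_zero fun y hy => ?_
        simp only [hZ]
        rw [if_neg (hn x hx), if_pos hy, hg]
      rw [e2, zero_add]
      refine Finset.sum_congr rfl fun y hy => ?_
      simp only [hZ]
      rw [if_neg (hn x hx), if_neg (hn y hy)]
  refine ⟨Z, fun v => ?_, ?_⟩
  · rw [key (fun x y z => z * (conj (v x) * v y).re) (fun x y => by simp), Finset.sum_union hd]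
    exact add_le_add (h v) (h' v)
  · unfold YT
    rw [key (fun x y z => z * ((phi Λ ((x : ℂ) - y)).re - if x = y then 1 else 0)) (fun x y => by simp),
      key (fun x y z => z ^ 2) (fun x y => by simp)]
    ring

/-- a pair -/
lemma pair_form (Λ : ℝ) (x y : ℝ) (hxy : x ≠ y) : ∃ Y : ℝ → ℝ → ℝ,
    (∀ v : ℝ → ℂ, ∑ a ∈ ({x, y} : Finset ℝ), ∑ b ∈ ({x, y} : Finset ℝ), Y a b * (conj (v a) * v b).re ≤
      ∑ a ∈ ({x, y} : Finset ℝ), ‖v a‖ ^ 2) ∧
    YT Λ {x, y} Y = 2 * (phi Λ ((x : ℂ) - y)).re ^ 2 := by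
  classical
  refine ⟨yt Λ 1, fun v => ?_, ?_⟩
  · exact yt_block Λ 1 1 (by norm_num) (by norm_num) _ Finset.card_le_two v
  · rw [YT_yt]
    simp only [Finset.sum_insert (show x ∉ ({y} : Finset ℝ) by simpa using hxy), Finset.sum_singleton,
      if_true, if_neg hxy, if_neg hxy.symm]
    rw [phi_sub_symm Λ y x]
    ring

/-- sums over injective images -/
lemma sum_inj_le (A : Finset ℝ) (f : ℝ → ℕ) (hf : ∀ a ∈ A, ∀ b ∈ A, f a = f b → a = b) (W : ℕ → ℝ)
    (M : ℕ) (hW0 : ∀ m, 0 ≤ W m) (hWM : ∀ m, M ≤ m → W m = 0) :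
    ∑ a ∈ A, W (f a) ≤ ∑ m ∈ Finset.range M, W m := by
  classical
  have h1 : ∑ a ∈ A, W (f a) = ∑ m ∈ A.image f, W m := by
    rw [Finset.sum_image]
    intro a ha b hb hab
    exact hf a ha b hb hab
  rw [h1]
  have h2 : ∑ m ∈ A.image f, W m = ∑ m ∈ (A.image f).filter (fun m => m < M), W m := by
    rw [Finset.sum_filter]
    refine Finset.sum_congr rfl fun m _ => ?_
    split_ifs with h
    · rfl
    · exact hWM m (not_lt.mp h)
  rw [h2]
  apply Finset.sum_le_sum_of_subset_of_nonneg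
  · intro m hm
    rw [Finset.mem_filter] at hm
    exact Finset.mem_range.mpr hm.2
  · intro m _ _
    exact hW0 m

/-- the number of the window -/
noncomputable def win (Λ x y : ℝ) : ℕ := ⌊Λ * |x - y| / (2 * Real.pi) / (19 / 20)⌋₊

/-- separated sets: sums over the windows -/
lemma sep_sum_le (Λ : ℝ) (hΛ : 0 < Λ) (S : Finset ℝ)
    (hsep : ∀ x ∈ S, ∀ y ∈ S, x ≠ y → 19 / 20 ≤ Λ * |x - y| / (2 * Real.pi)) (x : ℝ) (_ : x ∈ S)
    (W : ℕ → ℝ) (M : ℕ) (hW0 : ∀ m, 0 ≤ W m) (hWM : ∀ m, M ≤ m → W m = 0) :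
    ∑ y ∈ S.erase x, W (win Λ x y) ≤ 2 * ∑ m ∈ Finset.range M, W m := by
  classical
  have hpi := Real.pi_pos
  have hsplit : ∑ y ∈ S.erase x, W (win Λ x y) =
      ∑ y ∈ (S.erase x).filter (fun y => x < y), W (win Λ x y) +
      ∑ y ∈ (S.erase x).filter (fun y => ¬ x < y), W (win Λ x y) :=
    (Finset.sum_filter_add_sum_filter_not _ _ _).symm
  rw [hsplit, two_mul]
  have hinj : ∀ a b : ℝ, a ∈ S → b ∈ S → a ≠ b → ∀ u v : ℝ, u = Λ * |x - a| / (2 * Real.pi) →
      v = Λ * |x - b| / (2 * Real.pi) → |u - v| = Λ * |a - b| / (2 * Real.pi) →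
      win Λ x a = win Λ x b → False := by
    intro a b ha hb hab u v hu hv huv hw
    have h1 := hsep a ha b hb hab
    unfold win at hw
    rw [← hu, ← hv] at hw
    have hu0 : 0 ≤ u / (19 / 20) := by
      rw [hu]; positivity
    have hv0 : 0 ≤ v / (19 / 20) := by
      rw [hv]; positivity
    have a1 := Nat.floor_le hu0
    have a2 := Nat.lt_floor_add_one (u / (19 / 20))
    have a3 := Nat.floor_le hv0
    have a4 := Nat.lt_floor_add_one (v / (19 / 20))
    rw [hw] at a1 a2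
    have h2 : |u - v| < 19 / 20 := by
      rw [abs_lt]
      constructor <;> linarith
    linarith
  refine add_le_add ?_ ?_
  · apply sum_inj_le _ _ _ W M hW0 hWM
    intro a ha b hb hab
    rw [Finset.mem_filter, Finset.mem_erase] at ha hb
    by_contra hne
    refine hinj a b ha.1.2 hb.1.2 hne _ _ rfl rfl ?_ hab
    have e1 : |x - a| = a - x := by rw [abs_of_neg (by linarith [ha.2])]; ring
    have e2 : |x - b| = b - x := by rw [abs_of_neg (by linarith [hb.2])]; ring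
    rw [e1, e2, show Λ * (a - x) / (2 * Real.pi) - Λ * (b - x) / (2 * Real.pi) =
      Λ / (2 * Real.pi) * (a - b) by ring, abs_mul, abs_of_pos (by positivity)]
    ring
  · apply sum_inj_le _ _ _ W M hW0 hWM
    intro a ha b hb hab
    rw [Finset.mem_filter, Finset.mem_erase] at ha hb
    by_contra hne
    refine hinj a b ha.1.2 hb.1.2 hne _ _ rfl rfl ?_ hab
    have e1 : |x - a| = x - a := abs_of_nonneg (by linarith [not_lt.mp ha.2])
    have e2 : |x - b| = x - b := abs_of_nonneg (by linarith [not_lt.mp hb.2])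
    rw [e1, e2, show Λ * (x - a) / (2 * Real.pi) - Λ * (x - b) / (2 * Real.pi) =
      -(Λ / (2 * Real.pi) * (a - b)) by ring, abs_neg, abs_mul, abs_of_pos (by positivity)]
    ring

lemma B3_abs_le (d : ℝ) : |B3 d| ≤ 1 := by
  rcases le_or_gt 2 |d| with h | h
  · rw [B3_large h]; norm_num
  · have e : B3 d = B3 |d| := by
      rcases abs_choice d with h' | h' <;> rw [h']
      rw [B3_even]
    rw [e]
    have h0 := abs_nonneg d
    rcases le_or_gt |d| 1 with h1 | h1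
    · rw [B3_small h0 h1, abs_le]
      have : |d| ^ 3 ≤ 1 := pow_le_one₀ h0 h1
      have h3 : 0 ≤ |d| ^ 3 := by positivity
      have h2 : |d| ^ 2 ≤ 1 := pow_le_one₀ h0 h1
      have h4 : 0 ≤ |d| ^ 2 := by positivity
      constructor <;> nlinarith
    · rw [B3_mid h1.le h.le, abs_le]
      have h2 : (2 - |d|) ^ 3 ≤ 1 := pow_le_one₀ (by linarith) (by linarith)
      have h3 : 0 ≤ (2 - |d|) ^ 3 := pow_nonneg (by linarith) 3
      constructor <;> linarith

/-- a bound for the kernel -/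
noncomputable def CK (n : ℕ) (c : ℕ → ℝ) : ℝ :=
  ∑ i ∈ Finset.range n, ∑ j ∈ Finset.range n, |c i * c j|

lemma CK_nonneg (n : ℕ) (c : ℕ → ℝ) : 0 ≤ CK n c :=
  Finset.sum_nonneg fun _ _ => Finset.sum_nonneg fun _ _ => abs_nonneg _

lemma Ker_abs_le (n : ℕ) (c : ℕ → ℝ) (τ : ℝ) : |Ker n c τ| ≤ CK n c := by
  unfold Ker CK
  refine (Finset.abs_sum_le_sum_abs _ _).trans (Finset.sum_le_sum fun i _ => ?_)
  refine (Finset.abs_sum_le_sum_abs _ _).trans (Finset.sum_le_sum fun j _ => ?_)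
  rw [abs_mul]
  exact mul_le_of_le_one_right (abs_nonneg _) (B3_abs_le _)

/-- the hypotheses on the certificate -/
structure Cert (n : ℕ) (c : ℕ → ℝ) (yf : ℝ → ℝ) (W : ℕ → ℝ) (M : ℕ) : Prop where
  hc : ∀ i, n ≤ i → c i = 0
  hW0 : ∀ m, 0 ≤ W m
  hWM : ∀ m, M ≤ m → W m = 0
  hWs : 2 * ∑ m ∈ Finset.range M, W m ≤ 1
  hy : ∀ d, 19 / 20 ≤ d → |yf d| ≤ W ⌊d / (19 / 20)⌋₊
  hK : ∀ d, 19 / 20 ≤ d → Ker n c (20 * d) ≤ 2 * yf d * Expl.KK (2 * Real.pi * d) - yf d ^ 2
  hs : ∀ d, 0 ≤ d → d ≤ 19 / 20 → 0.0072 ≤ Expl.KK (2 * Real.pi * d) ^ 2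

lemma phi_eq_KK (Λ x y : ℝ) : (phi Λ ((x : ℂ) - y)).re =
    Expl.KK (2 * Real.pi * (Λ * |x - y| / (2 * Real.pi))) * Real.exp (-(x - y) ^ 2 / 8) := by
  have hpi := Real.pi_ne_zero
  rw [phi_sub_re]
  congr 1
  have e : 2 * Real.pi * (Λ * |x - y| / (2 * Real.pi)) = Λ * |x - y| := by field_simp
  rw [e]
  unfold Expl.KK
  rcases abs_choice (x - y) with h | h <;> rw [h]
  rw [show ((Λ * -(x - y) : ℝ) : ℂ) = -((Λ * (x - y) : ℝ) : ℂ) by push_cast; ring, kap_even]

/-- lower bound for one pair -/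
lemma pair_lower {K p y E : ℝ} (hK : K ≤ 2 * y * p - y ^ 2) (hE0 : 0 ≤ E) (hE1 : E ≤ 1) :
    K - (1 - E) * (|K| + y ^ 2) ≤ 2 * (y * (p * E)) - y ^ 2 := by
  have h1 : E * (K + y ^ 2) ≤ E * (2 * y * p) := mul_le_mul_of_nonneg_left (by linarith) hE0
  have h2 : -(1 - E) * |K| ≤ -(1 - E) * K := by
    have := le_abs_self K
    nlinarith
  nlinarith

/-- separated sets -/
theorem sep_case {n : ℕ} {c : ℕ → ℝ} {yf : ℝ → ℝ} {W : ℕ → ℝ} {M : ℕ} (C : Cert n c yf W M)
    (M' : ℕ) (hM' : M ≤ M') (hM'n : (n : ℝ) + 1 ≤ M') (Λ T η lam : ℝ) (hΛ : 0 < Λ) (hη : 0 ≤ η)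
    (hΛη : (2 * Real.pi * M') ^ 2 ≤ 8 * η * Λ ^ 2) (S : Finset ℝ)
    (hT : 0 ≤ T) (hS : ∀ x ∈ S, T < x ∧ x ≤ 2 * T)
    (hsep : ∀ x ∈ S, ∀ y ∈ S, x ≠ y → 19 / 20 ≤ Λ * |x - y| / (2 * Real.pi)) :
    ∃ Y : ℝ → ℝ → ℝ,
      (∀ v : ℝ → ℂ, ∑ x ∈ S, ∑ y ∈ S, Y x y * (conj (v x) * v y).re ≤ ∑ x ∈ S, ‖v x‖ ^ 2) ∧
      (2 * lam * (∑ i ∈ Finset.range n, c i) - Ker n c 0 - 2 * M' * (η * (CK n c + 1))) * S.card -
        lam ^ 2 * (20 * (Λ * T / (2 * Real.pi)) + n + 2) ≤ YT Λ S Y := by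
  classical
  have hpi := Real.pi_pos
  set dd : ℝ → ℝ → ℝ := fun x y => Λ * |x - y| / (2 * Real.pi) with hdd
  set Y : ℝ → ℝ → ℝ := fun x y => if x = y then 0 else yf (dd x y) with hY
  have hdsymm : ∀ x y, dd x y = dd y x := fun x y => by simp only [hdd]; rw [abs_sub_comm]
  have hYsymm : ∀ x y, Y x y = Y y x := by
    intro x y
    simp only [hY]
    rw [hdsymm x y]
    by_cases h : x = y
    · rw [if_pos h, if_pos h.symm]
    · rw [if_neg h, if_neg (Ne.symm h)]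
  have hrow : ∀ x ∈ S, ∑ y ∈ S, |Y x y| ≤ 1 := by
    intro x hx
    rw [← Finset.add_sum_erase S _ hx]
    have e0 : |Y x x| = 0 := by simp [hY]
    rw [e0, zero_add]
    refine le_trans (Finset.sum_le_sum (g := fun y => W (win Λ x y)) fun y hy => ?_) ?_
    · rw [Finset.mem_erase] at hy
      simp only [hY]
      rw [if_neg (Ne.symm hy.1)]
      exact C.hy _ (hsep x hx y hy.2 (Ne.symm hy.1))
    · exact (sep_sum_le Λ hΛ S hsep x hx W M C.hW0 C.hWM).trans C.hWs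
  refine ⟨Y, gersh S Y hrow (fun y hy => ?_), ?_⟩
  · refine le_trans (le_of_eq ?_) (hrow y hy)
    exact Finset.sum_congr rfl fun x _ => by rw [hYsymm]
  -- the main sum
  have hYT : YT Λ S Y = ∑ x ∈ S, ∑ y ∈ S.erase x,
      (2 * (Y x y * (phi Λ ((x : ℂ) - y)).re) - Y x y ^ 2) := by
    unfold YT
    rw [Finset.mul_sum, ← Finset.sum_sub_distrib]
    refine Finset.sum_congr rfl fun x hx => ?_
    rw [Finset.mul_sum, ← Finset.sum_sub_distrib, ← Finset.add_sum_erase S _ hx]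
    have e0 : Y x x = 0 := by simp [hY]
    rw [e0]
    simp only [zero_mul, mul_zero, ne_eq, OfNat.ofNat_ne_zero, not_false_eq_true, zero_pow,
      sub_zero, zero_add]
    refine Finset.sum_congr rfl fun y hy => ?_
    rw [Finset.mem_erase] at hy
    rw [if_neg (Ne.symm hy.1), sub_zero]
  have hWh : ∀ m, W m ≤ 1 / 2 := by
    intro m
    by_cases h : m < M
    · have := Finset.single_le_sum (f := W) (fun i _ => C.hW0 i) (Finset.mem_range.mpr h)
      linarith [C.hWs]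
    · rw [C.hWM m (not_lt.mp h)]; norm_num
  have hterm : ∀ x ∈ S, ∀ y ∈ S.erase x,
      Ker n c (20 * Λ / (2 * Real.pi) * x - 20 * Λ / (2 * Real.pi) * y) -
        (η * (CK n c + 1)) * (if win Λ x y < M' then 1 else 0) ≤
      2 * (Y x y * (phi Λ ((x : ℂ) - y)).re) - Y x y ^ 2 := by
    intro x hx y hy
    rw [Finset.mem_erase] at hy
    have hne : x ≠ y := Ne.symm hy.1
    have hd := hsep x hx y hy.2 hne
    have hKe : Ker n c (20 * Λ / (2 * Real.pi) * x - 20 * Λ / (2 * Real.pi) * y) =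
        Ker n c (20 * dd x y) := by
      simp only [hdd]
      rcases abs_choice (x - y) with h | h
      · rw [h]; congr 1; ring
      · rw [h, ← Ker_even]; congr 1; ring
    rw [hKe]
    have hYe : Y x y = yf (dd x y) := by simp only [hY]; rw [if_neg hne]
    rw [hYe, phi_eq_KK]
    have hk := C.hK _ hd
    have hE0 : 0 ≤ Real.exp (-(x - y) ^ 2 / 8) := (Real.exp_pos _).le
    have hE1 : Real.exp (-(x - y) ^ 2 / 8) ≤ 1 := by
      rw [Real.exp_le_one_iff]
      nlinarith [sq_nonneg (x - y)]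
    have hp := pair_lower hk hE0 hE1
    refine le_trans ?_ hp
    apply sub_le_sub_left
    by_cases hw : win Λ x y < M'
    · rw [if_pos hw, mul_one]
      have hE2 : 1 - Real.exp (-(x - y) ^ 2 / 8) ≤ η := by
        have h1 := Real.add_one_le_exp (-(x - y) ^ 2 / 8)
        have h2 : Λ * |x - y| ≤ 2 * Real.pi * M' := by
          have a2 := Nat.lt_floor_add_one (Λ * |x - y| / (2 * Real.pi) / (19 / 20))
          have a3 : (win Λ x y : ℝ) + 1 ≤ M' := by exact_mod_cast hw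
          unfold win at a3
          have a4 : Λ * |x - y| / (2 * Real.pi) / (19 / 20) ≤ M' := by linarith
          rw [div_le_iff₀ (by norm_num), div_le_iff₀ (by positivity)] at a4
          have a5 : (0 : ℝ) ≤ M' := Nat.cast_nonneg _
          nlinarith
        have h3 : (Λ * |x - y|) ^ 2 ≤ (2 * Real.pi * M') ^ 2 :=
          pow_le_pow_left₀ (by positivity) h2 2
        rw [mul_pow, sq_abs] at h3
        have h4 : Λ ^ 2 * (x - y) ^ 2 ≤ Λ ^ 2 * (8 * η) := by linarith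
        have h5 := le_of_mul_le_mul_left h4 (by positivity)
        linarith
      have hy2 : yf (dd x y) ^ 2 ≤ 1 := by
        have h1 := C.hy _ hd
        have h2 := hWh ⌊Λ * |x - y| / (2 * Real.pi) / (19 / 20)⌋₊
        have h3 : |yf (dd x y)| ≤ 1 := by
          have : |yf (dd x y)| ≤ W ⌊Λ * |x - y| / (2 * Real.pi) / (19 / 20)⌋₊ := h1
          linarith
        rw [← sq_abs]
        exact pow_le_one₀ (abs_nonneg _) h3
      have hK2 := Ker_abs_le n c (20 * dd x y)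
      have h6 : 0 ≤ |Ker n c (20 * dd x y)| + yf (dd x y) ^ 2 := by positivity
      calc (1 - Real.exp (-(x - y) ^ 2 / 8)) * (|Ker n c (20 * dd x y)| + yf (dd x y) ^ 2)
          ≤ η * (|Ker n c (20 * dd x y)| + yf (dd x y) ^ 2) := mul_le_mul_of_nonneg_right hE2 h6
        _ ≤ η * (CK n c + 1) := mul_le_mul_of_nonneg_left (by linarith) hη
    · rw [if_neg hw, mul_zero]
      rw [not_lt] at hw
      have hw' : M' ≤ ⌊dd x y / (19 / 20)⌋₊ := hw
      have h1 : W ⌊dd x y / (19 / 20)⌋₊ = 0 := C.hWM _ (hM'.trans hw')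
      have h2 : yf (dd x y) = 0 := by
        have := C.hy _ hd
        have h3 : |yf (dd x y)| ≤ W ⌊dd x y / (19 / 20)⌋₊ := this
        rw [h1] at h3
        exact abs_eq_zero.mp (le_antisymm h3 (abs_nonneg _))
      have h3 : Ker n c (20 * dd x y) = 0 := by
        apply Ker_far
        have h4 : (M' : ℝ) ≤ dd x y / (19 / 20) := by
          have h5 : (M' : ℝ) ≤ (⌊dd x y / (19 / 20)⌋₊ : ℝ) := by exact_mod_cast hw'
          exact h5.trans (Nat.floor_le (by simp only [hdd]; positivity))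
        rw [le_div_iff₀ (by norm_num)] at h4
        have h6 : (0 : ℝ) ≤ n := Nat.cast_nonneg _
        rw [abs_of_nonneg (by simp only [hdd]; positivity)]
        linarith
      rw [h2, h3]; simp
  have hsum1 : ∑ x ∈ S, ∑ y ∈ S.erase x,
      (Ker n c (20 * Λ / (2 * Real.pi) * x - 20 * Λ / (2 * Real.pi) * y) -
        (η * (CK n c + 1)) * (if win Λ x y < M' then 1 else 0)) ≤ YT Λ S Y := by
    rw [hYT]
    exact Finset.sum_le_sum fun x hx => Finset.sum_le_sum fun y hy => hterm x hx y hy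
  refine le_trans ?_ hsum1
  simp_rw [Finset.sum_sub_distrib]
  have hcnt : ∑ x ∈ S, ∑ y ∈ S.erase x, (η * (CK n c + 1)) * (if win Λ x y < M' then (1 : ℝ) else 0) ≤
      2 * M' * (η * (CK n c + 1)) * S.card := by
    have h1 : ∀ x ∈ S, ∑ y ∈ S.erase x, (η * (CK n c + 1)) * (if win Λ x y < M' then (1 : ℝ) else 0) ≤
        2 * M' * (η * (CK n c + 1)) := by
      intro x hx
      rw [← Finset.mul_sum]
      have h2 := sep_sum_le Λ hΛ S hsep x hx (fun m => if m < M' then 1 else 0) M'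
        (fun m => by split_ifs <;> norm_num) (fun m hm => if_neg (not_lt.mpr hm))
      have h3 : ∑ m ∈ Finset.range M', (if m < M' then (1 : ℝ) else 0) = M' := by
        rw [Finset.sum_congr rfl (fun m hm => if_pos (Finset.mem_range.mp hm))]
        simp
      rw [h3] at h2
      have h4 : 0 ≤ η * (CK n c + 1) := mul_nonneg hη (by linarith [CK_nonneg n c])
      calc η * (CK n c + 1) * ∑ y ∈ S.erase x, (if win Λ x y < M' then (1 : ℝ) else 0)
          ≤ η * (CK n c + 1) * (2 * M') := mul_le_mul_of_nonneg_left h2 h4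
        _ = 2 * M' * (η * (CK n c + 1)) := by ring
    refine (Finset.sum_le_sum h1).trans (le_of_eq ?_)
    rw [Finset.sum_const, nsmul_eq_mul]; ring
  have hmain := Ker_lower n c S (fun x => 20 * Λ / (2 * Real.pi) * x) (20 * Λ / (2 * Real.pi) * T)
    (20 * Λ / (2 * Real.pi) * (2 * T)) lam
    (mul_le_mul_of_nonneg_left (by linarith) (by positivity))
    (fun x hx => ⟨mul_le_mul_of_nonneg_left (hS x hx).1.le (by positivity),
      mul_le_mul_of_nonneg_left (hS x hx).2 (by positivity)⟩)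
  have hdiag : ∑ x ∈ S, ∑ y ∈ S, Ker n c (20 * Λ / (2 * Real.pi) * x - 20 * Λ / (2 * Real.pi) * y) =
      S.card * Ker n c 0 +
        ∑ x ∈ S, ∑ y ∈ S.erase x, Ker n c (20 * Λ / (2 * Real.pi) * x - 20 * Λ / (2 * Real.pi) * y) := by
    have h1 : ∀ x ∈ S, ∑ y ∈ S, Ker n c (20 * Λ / (2 * Real.pi) * x - 20 * Λ / (2 * Real.pi) * y) =
        Ker n c 0 + ∑ y ∈ S.erase x, Ker n c (20 * Λ / (2 * Real.pi) * x - 20 * Λ / (2 * Real.pi) * y) := by
      intro x hx
      rw [← Finset.add_sum_erase S _ hx, sub_self]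
    rw [Finset.sum_congr rfl h1, Finset.sum_add_distrib, Finset.sum_const, nsmul_eq_mul]
  rw [hdiag] at hmain
  have e1 : 20 * Λ / (2 * Real.pi) * (2 * T) - 20 * Λ / (2 * Real.pi) * T = 20 * (Λ * T / (2 * Real.pi)) := by
    ring
  rw [e1] at hmain
  linarith

end Pool.Agent.Helper42.RH
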