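import Pool.Graph.R_seed8.H370R2.Fin2
import Pool.Agent.Helper42.RH.Asm

open Complex Filter Topology Set MeasureTheory
open scoped BigOperators ComplexConjugate

namespace Pool.Agent.Helper42.RH

open H370

lemma close_pair {n : ℕ} {c : ℕ → ℝ} {yf : ℝ → ℝ} {W : ℕ → ℝ} {M : ℕ} (C : Cert n c yf W M)
    {Λ x y : ℝ} (hΛ : 0 < Λ) (hΛ2 : 1000 ≤ Λ ^ 2) (h : Λ * |x - y| / (2 * Real.pi) ≤ 19 / 20) :
    0.0071 ≤ (phi Λ ((x : ℂ) - y)).re ^ 2 := by
  have hpi := Real.pi_pos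
  have hpi2 := Real.pi_lt_d2
  have h0 : 0 ≤ Λ * |x - y| / (2 * Real.pi) := by positivity
  have h1 := C.hs _ h0 h
  rw [phi_eq_KK, mul_pow, ← Real.exp_nat_mul]
  have h2 : Λ * |x - y| ≤ 6 := by
    rw [div_le_iff₀ (by positivity)] at h
    linarith
  have h3 : (Λ * |x - y|) ^ 2 ≤ 6 ^ 2 := pow_le_pow_left₀ (by positivity) h2 2
  rw [mul_pow, sq_abs] at h3
  have h4 : (x - y) ^ 2 ≤ 0.036 := by
    have h5 : 1000 * (x - y) ^ 2 ≤ Λ ^ 2 * (x - y) ^ 2 :=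
      mul_le_mul_of_nonneg_right hΛ2 (sq_nonneg _)
    norm_num at h3 ⊢
    linarith
  have h5 := Real.add_one_le_exp (((2 : ℕ) : ℝ) * (-(x - y) ^ 2 / 8))
  push_cast at h5 ⊢
  have h6 : 0.991 ≤ Real.exp (2 * (-(x - y) ^ 2 / 8)) := by
    norm_num at h4 ⊢
    linarith
  calc (0.0071 : ℝ) ≤ 0.0072 * 0.991 := by norm_num
    _ ≤ _ := mul_le_mul h1 h6 (by norm_num) (sq_nonneg _)

theorem gen_case {n : ℕ} {c : ℕ → ℝ} {yf : ℝ → ℝ} {W : ℕ → ℝ} {M : ℕ} (C : Cert n c yf W M)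
    (M' : ℕ) (hM' : M ≤ M') (hM'n : (n : ℝ) + 1 ≤ M') (Λ T η lam a : ℝ) (hΛ : 0 < Λ) (hη : 0 ≤ η)
    (hΛη : (2 * Real.pi * M') ^ 2 ≤ 8 * η * Λ ^ 2) (hΛ2 : 1000 ≤ Λ ^ 2) (hT : 0 ≤ T)
    (ha : a ≤ 0.0071)
    (ha2 : a ≤ 2 * lam * (∑ i ∈ Finset.range n, c i) - Ker n c 0 - 2 * M' * (η * (CK n c + 1))) :
    ∀ k : ℕ, ∀ S : Finset ℝ, S.card = k → (∀ x ∈ S, T < x ∧ x ≤ 2 * T) →
    ∃ Y : ℝ → ℝ → ℝ,
      (∀ v : ℝ → ℂ, ∑ x ∈ S, ∑ y ∈ S, Y x y * (conj (v x) * v y).re ≤ ∑ x ∈ S, ‖v x‖ ^ 2) ∧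
      a * S.card - lam ^ 2 * (20 * (Λ * T / (2 * Real.pi)) + n + 2) ≤ YT Λ S Y := by
  classical
  intro k
  induction k using Nat.strong_induction_on with
  | _ k ih =>
    intro S hk hS
    by_cases hsep : ∀ x ∈ S, ∀ y ∈ S, x ≠ y → 19 / 20 ≤ Λ * |x - y| / (2 * Real.pi)
    · obtain ⟨Y, h1, h2⟩ := sep_case C M' hM' hM'n Λ T η lam hΛ hη hΛη S hT hS hsep
      refine ⟨Y, h1, le_trans ?_ h2⟩
      have h3 : (0 : ℝ) ≤ S.card := Nat.cast_nonneg _
      have := mul_le_mul_of_nonneg_right ha2 h3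
      linarith
    · push Not at hsep
      obtain ⟨x, hx, y, hy, hxy, hlt⟩ := hsep
      set S' := S \ {x, y} with hS'
      have hsub : ({x, y} : Finset ℝ) ⊆ S := by
        intro z hz
        simp only [Finset.mem_insert, Finset.mem_singleton] at hz
        rcases hz with rfl | rfl <;> assumption
      have hcard : S'.card + 2 = S.card := by
        have := Finset.card_sdiff_add_card_eq_card hsub
        rw [Finset.card_pair hxy] at this
        exact this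
      obtain ⟨Y1, g1, g2⟩ := ih S'.card (by omega) S' rfl
        (fun z hz => hS z (Finset.sdiff_subset hz))
      obtain ⟨Y2, f1, f2⟩ := pair_form Λ x y hxy
      obtain ⟨Z, z1, z2⟩ := union_form Λ S' {x, y} Finset.sdiff_disjoint Y1 Y2 g1 f1
      have hun : S' ∪ {x, y} = S := Finset.sdiff_union_of_subset hsub
      rw [hun] at z1 z2
      refine ⟨Z, z1, ?_⟩
      rw [z2, f2]
      have hp := close_pair C hΛ hΛ2 hlt.le
      have hc' : (S.card : ℝ) = S'.card + 2 := by exact_mod_cast hcard.symm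
      rw [hc']
      linarith

theorem yhyp_cert {n : ℕ} {c : ℕ → ℝ} {yf : ℝ → ℝ} {W : ℕ → ℝ} {M : ℕ} (C : Cert n c yf W M)
    (lam α s1 κ : ℝ) (hα0 : 0 < α) (hα1 : α ≤ 0.0071)
    (hα2 : α ≤ 2 * lam * (∑ i ∈ Finset.range n, c i) - Ker n c 0)
    (hs1 : 0 < s1) (hκ : κ < α * s1 - 20 * lam ^ 2) : YHyp s1 κ := by
  have hpi := Real.pi_pos
  obtain ⟨M', hM'⟩ : ∃ M' : ℕ, (M : ℝ) + n + 1 ≤ M' := ⟨M + n + 1, by push_cast; linarith⟩
  have hMM : M ≤ M' := by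
    have h0 : (0 : ℝ) ≤ n := Nat.cast_nonneg n
    have : (M : ℝ) ≤ M' := by linarith
    exact_mod_cast this
  have hMn : (n : ℝ) + 1 ≤ M' := by
    have h0 : (0 : ℝ) ≤ M := Nat.cast_nonneg M
    linarith
  have hM'0 : (0 : ℝ) < M' := by
    have h0 : (0 : ℝ) ≤ n := Nat.cast_nonneg n
    linarith
  have hCK := CK_nonneg n c
  -- the loss
  set g : ℝ := α * s1 - 20 * lam ^ 2 - κ with hg
  have hg0 : 0 < g := by rw [hg]; linarith
  set ε : ℝ := min (α / 2) (g / (4 * s1)) with hε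
  have hε0 : 0 < ε := lt_min (by linarith) (by positivity)
  set η : ℝ := ε / (2 * M' * (CK n c + 1)) with hη
  have hη0 : 0 < η := by positivity
  have hηε : 2 * M' * (η * (CK n c + 1)) = ε := by
    rw [hη]; field_simp
  have hev : ∀ᶠ T : ℝ in atTop, 1 ≤ Real.log T ∧ 4000 ≤ Real.log T ∧
      (2 * Real.pi * M') ^ 2 / (2 * η) ≤ Real.log T ∧
      2 * Real.pi * (2 * lam ^ 2 * (n + 2) / g) ≤ T ∧ 1 ≤ T :=
    (Real.tendsto_log_atTop.eventually_ge_atTop _).and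
      ((Real.tendsto_log_atTop.eventually_ge_atTop _).and
        ((Real.tendsto_log_atTop.eventually_ge_atTop _).and
          ((eventually_ge_atTop _).and (eventually_ge_atTop _))))
  obtain ⟨T1, hT1⟩ := hev.exists_forall_of_atTop
  refine ⟨1 / 2, by norm_num, T1, fun T hT Λ hΛ0 hΛ1 S hS hcard => ?_⟩
  obtain ⟨hL1, hL4, hL2, hTX, hT1'⟩ := hT1 T hT
  set L := Real.log T with hL
  set N : ℝ := T * L / (2 * Real.pi) with hN
  have hΛL : L / 2 ≤ Λ := by linarith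
  have hΛpos : 0 < Λ := by linarith
  have hΛsq : L ≤ Λ ^ 2 * 4 := by nlinarith
  have hΛη : (2 * Real.pi * M') ^ 2 ≤ 8 * η * Λ ^ 2 := by
    rw [div_le_iff₀ (by positivity)] at hL2
    nlinarith
  have hΛ2 : 1000 ≤ Λ ^ 2 := by linarith
  have hN0 : 0 < N := by positivity
  have hεα : ε ≤ α / 2 := min_le_left _ _
  have hεg : ε ≤ g / (4 * s1) := min_le_right _ _
  obtain ⟨Y, h1, h2⟩ := gen_case C M' hMM hMn Λ T η lam (α - ε) hΛpos hη0.le hΛη hΛ2 (by linarith)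
    (by linarith) (by rw [hηε]; linarith) S.card S rfl hS
  refine ⟨Y, h1, le_trans ?_ h2⟩
  have hLT : Λ * T / (2 * Real.pi) ≤ N := by
    rw [hN]
    apply div_le_div_of_nonneg_right _ (by positivity)
    rw [mul_comm T L]
    exact mul_le_mul_of_nonneg_right hΛ1 (by linarith)
  have h3 : (α - ε) * (s1 * N) ≤ (α - ε) * S.card :=
    mul_le_mul_of_nonneg_left hcard (by linarith)
  have h4 : lam ^ 2 * (20 * (Λ * T / (2 * Real.pi)) + n + 2) ≤ lam ^ 2 * (20 * N + n + 2) :=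
    mul_le_mul_of_nonneg_left (by linarith) (sq_nonneg _)
  have h5 : ε * s1 ≤ g / 4 := by
    rw [le_div_iff₀ (by positivity)] at hεg
    linarith
  have h6 : lam ^ 2 * (n + 2) ≤ g / 2 * N := by
    have h7 : 2 * lam ^ 2 * (n + 2) / g ≤ N := by
      rw [hN, le_div_iff₀ (by positivity)]
      have : T * 1 ≤ T * L := mul_le_mul_of_nonneg_left hL1 (by linarith)
      linarith
    rw [div_le_iff₀ hg0] at h7
    linarith
  have h8 : ε * s1 * N ≤ g / 4 * N := mul_le_mul_of_nonneg_right h5 hN0.le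
  have h9 : κ * N = (α * s1 - 20 * lam ^ 2 - g) * N := by rw [hg]; ring
  rw [h9]
  have h10 : 0 ≤ g * N := by positivity
  nlinarith

end Pool.Agent.Helper42.RH
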