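import Pool.Agent.Helper42.RH.Chk

namespace Pool.Agent.Helper42.RH

set_option maxRecDepth 1000000 in
set_option maxHeartbeats 0 in
theorem okR1 : (List.range' 0 90).all chkR = true := by decide +kernel

end Pool.Agent.Helper42.RH
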