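import Pool.Agent.Helper42.RH.Lift
import Pool.Agent.Helper42.RH.ChkA
import Pool.Agent.Helper42.RH.ChkB
import Pool.Agent.Helper42.RH.ChkC
import Pool.Agent.Helper42.RH.ChkD
import Pool.Agent.Helper42.RH.ChkE
import Pool.Agent.Helper42.RH.ChkF
import Pool.Agent.Helper42.RH.ChkG

open Complex Filter Topology Set MeasureTheory
open scoped BigOperators ComplexConjugate

namespace Pool.Agent.Helper42.RH

open H370 H370.GramAux H370.Expl

lemma allR (m : ℕ) (h : m < 604) : chkR m = true := by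
  rcases lt_or_ge m 90 with h1 | h1
  · exact List.all_eq_true.mp okR1 m (by rw [List.mem_range'_1]; omega)
  · rcases lt_or_ge m 240 with h2 | h2
    · exact List.all_eq_true.mp okR2 m (by rw [List.mem_range'_1]; omega)
    · exact List.all_eq_true.mp okR3 m (by rw [List.mem_range'_1]; omega)

lemma allS (k : ℕ) (h0 : 152 ≤ k) (h : k < 4816) : chkS k = true := by
  rcases lt_or_ge k 2552 with h1 | h1
  · exact List.all_eq_true.mp okS1 k (by rw [List.mem_range'_1]; omega)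
  · exact List.all_eq_true.mp okS2 k (by rw [List.mem_range'_1]; omega)

lemma allN (k : ℕ) (h0 : 152 ≤ k) (h : k ≤ 4816) : chkN k = true :=
  List.all_eq_true.mp okN k (by rw [List.mem_range'_1]; omega)

lemma allT (r : ℕ) (h : r < 160) : chkT r = true :=
  List.all_eq_true.mp okT r (by rw [List.mem_range]; exact h)

lemma allW (k : ℕ) (h0 : 152 ≤ k) (h : k < 4816) : chkW k = true :=
  List.all_eq_true.mp okW k (by rw [List.mem_range'_1]; omega)

lemma sT0 : sT 0 = 0 := by decide +kernel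
lemma cT0 : cT 0 = 1099511627776 := by decide +kernel

lemma node (k : ℕ) (h0 : 152 ≤ k) (h : k ≤ 4816) :
    |KK (Real.pi * k / 80) - pT k / 2 ^ 30| ≤ 2 / 10 ^ 8 :=
  node_real h0 h (allN k h0 h) allT sT0 cT0

/-- interpolation between the nodes -/
lemma interp (k : ℕ) (h0 : 152 ≤ k) (h : k < 4816) (s : ℝ) (hs0 : 0 ≤ s) (hs1 : s ≤ 1) :
    |KK (Real.pi * (k + s) / 80) - (pT k * (1 - s) + pT (k + 1) * s) / 2 ^ 30| ≤ 19005 / 2 ^ 30 := by
  have hp2 := Real.pi_lt_d6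
  have hp0 := Real.pi_pos
  have n0 := node k h0 h.le
  have n1 := node (k + 1) (by omega) (by omega)
  have hc := KK_chord (Real.pi * k / 80) (Real.pi * ((k + 1 : ℕ) : ℝ) / 80) s hs0 hs1
  have e1 : (1 - s) * (Real.pi * k / 80) + s * (Real.pi * ((k + 1 : ℕ) : ℝ) / 80) =
      Real.pi * (k + s) / 80 := by push_cast; ring
  have e2 : Real.pi * ((k + 1 : ℕ) : ℝ) / 80 - Real.pi * k / 80 = Real.pi / 80 := by push_cast; ring
  rw [e1, e2] at hc
  have hpp : 0.01134 * (Real.pi / 80) ^ 2 ≤ 0.0000175 := by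
    have : (Real.pi / 80) ^ 2 ≤ (3.141593 / 80) ^ 2 := by
      apply pow_le_pow_left₀ (by positivity)
      linarith
    norm_num at this ⊢
    linarith
  have hc' := hc.trans hpp
  generalize KK (Real.pi * (k + s) / 80) = F at *
  generalize KK (Real.pi * k / 80) = F0 at *
  generalize KK (Real.pi * ((k + 1 : ℕ) : ℝ) / 80) = F1 at *
  generalize ((pT k : ℤ) : ℝ) = P0 at *
  generalize ((pT (k + 1) : ℤ) : ℝ) = P1 at *
  have g0 : |(1 - s) * (F0 - P0 / 2 ^ 30)| ≤ (1 - s) * (2 / 10 ^ 8) := by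
    rw [abs_mul, abs_of_nonneg (by linarith : 0 ≤ 1 - s)]
    exact mul_le_mul_of_nonneg_left n0 (by linarith)
  have g1 : |s * (F1 - P1 / 2 ^ 30)| ≤ s * (2 / 10 ^ 8) := by
    rw [abs_mul, abs_of_nonneg hs0]
    exact mul_le_mul_of_nonneg_left n1 hs0
  have e3 : F - (P0 * (1 - s) + P1 * s) / 2 ^ 30 = (F - ((1 - s) * F0 + s * F1)) +
      (1 - s) * (F0 - P0 / 2 ^ 30) + s * (F1 - P1 / 2 ^ 30) := by ring
  rw [e3]
  refine (abs_add_three _ _ _).trans ?_
  have : (0.0000175 : ℝ) + 2 / 10 ^ 8 ≤ 19005 / 2 ^ 30 := by norm_num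
  linarith

/-- the test function -/
noncomputable def yfun (d : ℝ) : ℝ :=
  if 152 ≤ ⌊160 * d⌋₊ ∧ ⌊160 * d⌋₊ < 4816 then
    (yT ⌊160 * d⌋₊ * (1 - (160 * d - ⌊160 * d⌋₊)) + yT (⌊160 * d⌋₊ + 1) * (160 * d - ⌊160 * d⌋₊)) / 2 ^ 30
  else 0

/-- the window bounds -/
noncomputable def Wfun (m : ℕ) : ℝ := if m < 32 then (wT m : ℝ) / 2 ^ 30 else 0

lemma wT_nonneg (m : ℕ) : 0 ≤ wT m := by unfold wT; exact Int.natCast_nonneg _

lemma Wfun_nonneg (m : ℕ) : 0 ≤ Wfun m := by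
  unfold Wfun
  split_ifs
  · have : (0 : ℝ) ≤ wT m := by exact_mod_cast wT_nonneg m
    positivity
  · exact le_rfl

lemma wT_sum : 2 * ∑ m ∈ Finset.range 32, wT m ≤ 1073741824 := by decide +kernel

lemma Wfun_sum : 2 * ∑ m ∈ Finset.range 32, Wfun m ≤ 1 := by
  have h1 : ∑ m ∈ Finset.range 32, Wfun m = ((∑ m ∈ Finset.range 32, wT m : ℤ) : ℝ) / 2 ^ 30 := by
    rw [Int.cast_sum, Finset.sum_div]
    refine Finset.sum_congr rfl fun m hm => ?_
    unfold Wfun
    rw [if_pos (Finset.mem_range.mp hm)]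
  rw [h1]
  have h2 : (2 : ℝ) * ((∑ m ∈ Finset.range 32, wT m : ℤ) : ℝ) ≤ 1073741824 := by
    exact_mod_cast wT_sum
  generalize ((∑ m ∈ Finset.range 32, wT m : ℤ) : ℝ) = z at *
  norm_num
  linarith

lemma seg_cast {a b c d i p0 p1 y0 y1 w : ℤ} (h : seg a b c d i p0 p1 y0 y1 w = true) {s φ : ℝ}
    (hs0 : 0 ≤ s) (hs1 : s ≤ 1) (hw0 : |(y0 : ℝ)| ≤ w) (hw1 : |(y1 : ℝ)| ≤ w)
    (hφ : |φ - ((p0 : ℝ) * (1 - s) + p1 * s) / 2 ^ 30| ≤ 19005 / 2 ^ 30) :
    ((a : ℝ) / 2 ^ 40 * (1 - (i + s) / 8) ^ 3 + b / 2 ^ 40 * (4 - 6 * ((i + s) / 8) ^ 2 + 3 * ((i + s) / 8) ^ 3) +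
      c / 2 ^ 40 * (1 + 3 * ((i + s) / 8) + 3 * ((i + s) / 8) ^ 2 - 3 * ((i + s) / 8) ^ 3) +
      d / 2 ^ 40 * ((i + s) / 8) ^ 3) / 6 ≤
      2 * (((y0 : ℝ) * (1 - s) + y1 * s) / 2 ^ 30) * φ - (((y0 : ℝ) * (1 - s) + y1 * s) / 2 ^ 30) ^ 2 := by
  unfold seg at h
  simp only [Bool.and_eq_true, decide_eq_true_eq] at h
  obtain ⟨⟨⟨c0, c1⟩, c2⟩, c3⟩ := h
  refine seg_real hs0 hs1 hw0 hw1 hφ ?_ ?_ ?_ ?_
  · exact_mod_cast c0
  · exact_mod_cast c1
  · exact_mod_cast c2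
  · exact_mod_cast c3

/-- the inequality in a segment -/
lemma seg_ineq (k : ℕ) (h0 : 152 ≤ k) (h : k < 4816) (s : ℝ) (hs0 : 0 ≤ s) (hs1 : s ≤ 1) :
    Ker 601 cf (((k / 8 : ℕ) : ℝ) + (((k % 8 : ℕ) : ℝ) + s) / 8) ≤
      2 * ((yT k * (1 - s) + yT (k + 1) * s) / 2 ^ 30) * KK (Real.pi * (k + s) / 80) -
        ((yT k * (1 - s) + yT (k + 1) * s) / 2 ^ 30) ^ 2 := by
  have hi : ((k % 8 : ℕ) : ℝ) ≤ 7 := by
    have : k % 8 ≤ 7 := by omega
    exact_mod_cast this
  have hi0 : (0 : ℝ) ≤ ((k % 8 : ℕ) : ℝ) := Nat.cast_nonneg _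
  rw [Ker_cell 601 cf cf_zero (k / 8) (by omega) _ (by positivity) (by linarith),
    Rc_eq _ (allR (k / 8 - 1) (by omega)), Rc_eq _ (allR (k / 8) (by omega)),
    Rc_eq _ (allR (k / 8 + 1) (by omega)), Rc_eq _ (allR (k / 8 + 2) (by omega))]
  have hS := allS k h0 h
  unfold chkS at hS
  have w0 : |((yT k : ℤ) : ℝ)| ≤ ((max |yT k| |yT (k + 1)| : ℤ) : ℝ) := by
    exact_mod_cast le_max_left _ _
  have w1 : |((yT (k + 1) : ℤ) : ℝ)| ≤ ((max |yT k| |yT (k + 1)| : ℤ) : ℝ) := by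
    exact_mod_cast le_max_right _ _
  have hfin := seg_cast hS hs0 hs1 w0 w1 (interp k h0 h s hs0 hs1)
  rw [Int.cast_natCast] at hfin
  exact hfin

lemma small_d {d : ℝ} (h0 : 0 ≤ d) (h1 : d ≤ 19 / 20) : 0.0072 ≤ KK (2 * Real.pi * d) ^ 2 := by
  have hpi := Real.pi_gt_d4
  have hpi2 := Real.pi_lt_d4
  norm_num at hpi hpi2
  set x := 2 * Real.pi * d with hx
  have hx0 : 0 ≤ x := by positivity
  have hx1 : x ≤ 5.9693 := by
    calc x ≤ 2 * Real.pi * (19 / 20) := mul_le_mul_of_nonneg_left h1 (by positivity)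
      _ ≤ _ := by norm_num; linarith
  suffices h : 0.085 ≤ KK x by
    norm_num at h ⊢
    nlinarith
  rcases le_or_gt x 5.027 with h2 | h2
  · rcases le_or_gt Real.pi x with h3 | h3
    · refine le_trans ?_ (KK_ge_of_pi h3 (by norm_num at h2; linarith))
      have hx2 : 0 < x ^ 2 - 2 := by nlinarith
      rw [le_div_iff₀ hx2]
      norm_num at h2 ⊢
      nlinarith
    · have hmono : KK Real.pi ≤ KK x := by
        unfold KK
        rw [kap_re, kap_re]
        refine intervalIntegral.integral_mono_on (by norm_num) ?_ ?_ ?_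
        · apply Continuous.intervalIntegrable
          have := g0_cont
          fun_prop
        · apply Continuous.intervalIntegrable
          have := g0_cont
          fun_prop
        · intro t ht
          refine mul_le_mul_of_nonneg_left ?_ (g0_nonneg ht.1 ht.2)
          rw [← Real.cos_abs (Real.pi * t), ← Real.cos_abs (x * t), abs_mul, abs_mul,
            abs_of_pos Real.pi_pos, abs_of_nonneg hx0]
          have ht1 : |t| ≤ 1 / 2 := abs_le.mpr ⟨by linarith [ht.1], ht.2⟩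
          have ht0 := abs_nonneg t
          apply Real.cos_le_cos_of_nonneg_of_le_pi (by positivity)
          · nlinarith
          · exact mul_le_mul_of_nonneg_right h3.le ht0
      refine le_trans ?_ hmono
      refine le_trans ?_ (KK_ge_of_pi le_rfl (by linarith))
      have hx2 : 0 < Real.pi ^ 2 - 2 := by nlinarith
      rw [le_div_iff₀ hx2]
      norm_num
      nlinarith
  · set z := Real.pi - x / 2 with hz
    have hz0 : 0.1568 ≤ z := by rw [hz]; norm_num at hx1 ⊢; linarith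
    have hz1 : z ≤ 0.6284 := by rw [hz]; norm_num at h2 ⊢; linarith
    have hsin : Real.sin (x / 2) = Real.sin z := by rw [hz, Real.sin_pi_sub]
    have hcos : Real.cos (x / 2) = -Real.cos z := by rw [hz, Real.cos_pi_sub, neg_neg]
    have hs : 0.1559 ≤ Real.sin z := by
      have h3 := Real.sin_gt_sub_cube (x := z) (by norm_num at hz0; linarith)
      refine le_trans ?_ h3.le
      norm_num at hz0 hz1 ⊢
      have h4 : z ^ 2 ≤ 1 := by nlinarith
      have h5 : (z - 98 / 625) * (1 - (z ^ 2 + z * (98 / 625) + (98 / 625) ^ 2) / 6) ≥ 0 := by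
        apply mul_nonneg (by linarith)
        nlinarith
      nlinarith
    have hc : 0.802 ≤ Real.cos z := by
      have h3 := Real.one_sub_sq_div_two_le_cos (x := z)
      refine le_trans ?_ h3
      norm_num at hz0 hz1 ⊢
      nlinarith
    have hq1 : 1.2 ≤ qq := by
      have := (abs_le.mp qq_num).1
      norm_num at this ⊢
      linarith
    have hq2 := qq_lt
    have hP : 1.74 ≤ PPx x := by
      unfold PPx
      rw [hsin, hcos]
      have a1 : 5.027 * 0.1559 ≤ x * Real.sin z := mul_le_mul h2.le hs (by norm_num) hx0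
      have a2 : 1.2 * 0.802 ≤ qq * Real.cos z := mul_le_mul hq1 hc (by norm_num) (by linarith)
      norm_num at a1 a2 ⊢
      linarith
    have hKK := KK_eq x
    have hx2 : x ^ 2 - 2 ≤ 33.64 := by norm_num at hx1 ⊢; nlinarith
    have hx3 : 0 < x ^ 2 - 2 := by norm_num at h2; nlinarith
    by_contra hcon
    rw [not_le] at hcon
    have b1 : qq * (x ^ 2 - 2) * KK x ≤ qq * (x ^ 2 - 2) * 0.085 :=
      mul_le_mul_of_nonneg_left hcon.le (by positivity)
    have b2 : qq * (x ^ 2 - 2) ≤ 1.21 * 33.64 := mul_le_mul hq2 hx2 hx3.le (by norm_num)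
    norm_num at b1 b2 hP
    linarith

theorem cert : Cert 601 cf yfun Wfun 32 where
  hc := cf_zero
  hW0 := Wfun_nonneg
  hWM := fun m hm => by unfold Wfun; rw [if_neg (not_lt.mpr hm)]
  hWs := Wfun_sum
  hy := by
    intro d hd
    have hk0 : 152 ≤ ⌊160 * d⌋₊ := Nat.le_floor (by push_cast; linarith)
    by_cases hk : ⌊160 * d⌋₊ < 4816
    · unfold yfun
      rw [if_pos ⟨hk0, hk⟩]
      have hfl : ⌊d / (19 / 20)⌋₊ = ⌊160 * d⌋₊ / 152 := by
        rw [show d / (19 / 20) = 160 * d / ((152 : ℕ) : ℝ) by push_cast; ring]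
        exact Nat.floor_div_natCast _ _
      rw [hfl]
      have hw := allW _ hk0 hk
      unfold chkW at hw
      rw [Bool.and_eq_true] at hw
      simp only [absLe_iff] at hw
      have hlt : ⌊160 * d⌋₊ / 152 < 32 := by omega
      unfold Wfun
      rw [if_pos hlt]
      have hs0 : 0 ≤ 160 * d - ⌊160 * d⌋₊ := by
        have := Nat.floor_le (a := 160 * d) (by linarith)
        linarith
      have hs1 : 160 * d - ⌊160 * d⌋₊ ≤ 1 := by
        have := Nat.lt_floor_add_one (160 * d)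
        linarith
      have g0 : |((yT ⌊160 * d⌋₊ : ℤ) : ℝ)| ≤ wT (⌊160 * d⌋₊ / 152) := by exact_mod_cast hw.1
      have g1 : |((yT (⌊160 * d⌋₊ + 1) : ℤ) : ℝ)| ≤ wT (⌊160 * d⌋₊ / 152) := by exact_mod_cast hw.2
      generalize (160 * d - ⌊160 * d⌋₊ : ℝ) = s at *
      generalize ((yT ⌊160 * d⌋₊ : ℤ) : ℝ) = Y0 at *
      generalize ((yT (⌊160 * d⌋₊ + 1) : ℤ) : ℝ) = Y1 at *
      generalize ((wT (⌊160 * d⌋₊ / 152) : ℤ) : ℝ) = w at *
      rw [abs_div, abs_of_pos (by norm_num : (0 : ℝ) < 2 ^ 30)]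
      apply div_le_div_of_nonneg_right _ (by norm_num)
      calc |Y0 * (1 - s) + Y1 * s| ≤ |Y0 * (1 - s)| + |Y1 * s| := abs_add_le _ _
        _ = |Y0| * (1 - s) + |Y1| * s := by
          rw [abs_mul, abs_mul, abs_of_nonneg (by linarith : 0 ≤ 1 - s), abs_of_nonneg hs0]
        _ ≤ w * (1 - s) + w * s := add_le_add (mul_le_mul_of_nonneg_right g0 (by linarith))
            (mul_le_mul_of_nonneg_right g1 hs0)
        _ = w := by ring
    · unfold yfun
      rw [if_neg (fun h => hk h.2)]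
      simp only [abs_zero]
      exact Wfun_nonneg _
  hK := by
    intro d hd
    have hk0 : 152 ≤ ⌊160 * d⌋₊ := Nat.le_floor (by push_cast; linarith)
    by_cases hk : ⌊160 * d⌋₊ < 4816
    · have hs0 : 0 ≤ 160 * d - ⌊160 * d⌋₊ := by
        have := Nat.floor_le (a := 160 * d) (by linarith)
        linarith
      have hs1 : 160 * d - ⌊160 * d⌋₊ ≤ 1 := by
        have := Nat.lt_floor_add_one (160 * d)
        linarith
      have h := seg_ineq _ hk0 hk _ hs0 hs1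
      unfold yfun
      rw [if_pos ⟨hk0, hk⟩]
      have e1 : 20 * d = ((⌊160 * d⌋₊ / 8 : ℕ) : ℝ) + (((⌊160 * d⌋₊ % 8 : ℕ) : ℝ) +
          (160 * d - ⌊160 * d⌋₊)) / 8 := by
        have : (⌊160 * d⌋₊ : ℝ) = ((⌊160 * d⌋₊ % 8 : ℕ) : ℝ) + 8 * ((⌊160 * d⌋₊ / 8 : ℕ) : ℝ) := by
          exact_mod_cast (Nat.mod_add_div ⌊160 * d⌋₊ 8).symm
        linarith
      have e2 : 2 * Real.pi * d = Real.pi * (⌊160 * d⌋₊ + (160 * d - ⌊160 * d⌋₊)) / 80 := by ring
      rw [← e1, ← e2] at h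
      exact h
    · have hd2 : (4816 : ℝ) ≤ 160 * d := by
        have h1 : (4816 : ℝ) ≤ ⌊160 * d⌋₊ := by exact_mod_cast not_lt.mp hk
        exact h1.trans (Nat.floor_le (by linarith))
      unfold yfun
      rw [if_neg (fun h => hk h.2), Ker_far 601 cf (20 * d) (by
        rw [abs_of_nonneg (by linarith)]; push_cast; linarith)]
      simp
  hs := fun d h0 h1 => small_d h0 h1

lemma Ker0 : Ker 601 cf 0 = ((4 * rT 0 + 2 * rT 1 : ℤ) : ℝ) / (6 * 2 ^ 40) := by
  rw [Ker_zero 601 cf cf_zero, Rc_eq 0 (allR 0 (by norm_num)), Rc_eq 1 (allR 1 (by norm_num))]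
  push_cast
  ring

lemma rT01 : 4 * rT 0 + 2 * rT 1 = 29285805254 := by decide +kernel

theorem yhyp : YHyp 0.6724 0.000827 := by
  refine yhyp_cert cert 0.013812 0.0069046 0.6724 0.000827 (by norm_num) (by norm_num) ?_ (by norm_num) ?_
  · rw [Ker0, rT01, cf_sum]
    norm_num
  · norm_num

/-- proportions -/
theorem main_numeric (F : ℂ → ℂ) (hF : GoodL F) :
    ∃ T0 : ℝ, ∀ T : ℝ, T0 ≤ T →
      (0.67331 : ℝ) * (NN F T (2 * T) : ℝ) ≤ (Ns F T (2 * T) : ℝ) ∧
      (0.836655 : ℝ) * (NN F T (2 * T) : ℝ) ≤ (Nd F T (2 * T) : ℝ) := by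
  obtain ⟨T0, hT0⟩ := main_of_Y hF 0.6724 0.000827 0.00082 (by norm_num) (by norm_num) (by norm_num)
    (by have := cMTinv_num; norm_num at this ⊢; linarith) yhyp
  refine ⟨T0, fun T hT => ?_⟩
  obtain ⟨h1, h2⟩ := hT0 T hT
  have h3 := cMTinv_num
  have h4 : (0 : ℝ) ≤ NN F T (2 * T) := Nat.cast_nonneg _
  norm_num at h3
  constructor
  · refine le_trans (mul_le_mul_of_nonneg_right ?_ h4) h1
    norm_num; linarith
  · refine le_trans (mul_le_mul_of_nonneg_right ?_ h4) h2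
    norm_num; linarith

end Pool.Agent.Helper42.RH
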