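import Pool.Agent.Helper42.RH.Data

namespace Pool.Agent.Helper42.RH

/-- field `k` of width `w` -/
def fld (N w k : ℕ) : ℕ := (N >>> (w * k)) % 2 ^ w

def rT (k : ℕ) : ℤ := (fld rN 36 k : ℤ) - 34359738368
def sT (k : ℕ) : ℤ := (fld sN 44 k : ℤ) - 4398046511104
def cT (k : ℕ) : ℤ := (fld cN 44 k : ℤ) - 4398046511104
def pT (k : ℕ) : ℤ := (fld pN 32 k : ℤ) - 2147483648
def yT (k : ℕ) : ℤ := (fld yN 32 k : ℤ) - 2147483648

/-- scalar product of lists -/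
def dot (l : List ℤ) : List ℤ → ℤ :=
  List.rec (fun _ => 0) (fun a _ ih m => List.rec 0 (fun b bs _ => a * b + ih bs) m) l

/-- `|a| ≤ b` -/
def absLe (a b : ℤ) : Bool := decide (a ≤ b) && decide (-b ≤ a)

def chkR (m : ℕ) : Bool := decide (dot cl (cl.drop m) = rT m)

def chkT (r : ℕ) : Bool :=
  absLe (sT (r + 1) * 1099511627776 - (sT r * 1099299686445 + cT r * 21587473157)) 1099511627776 &&
  absLe (cT (r + 1) * 1099511627776 - (cT r * 1099299686445 - sT r * 21587473157)) 1099511627776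

/-- sign -/
def sgn (m : ℕ) : ℤ := if m % 2 = 0 then 1 else -1

def nodeN (k : ℕ) (p s c : ℤ) : Bool :=
  let x : ℤ := 3454217652358 * (k : ℤ)
  let G : ℤ := 1328716087935 * (x * x - 12800 * (1099511627776 * 1099511627776))
  absLe (p * G - 2 * (1073741824 * 1099511627776) * (80 * x * s - 6400 * 1328716087935 * c)) G

def chkN (k : ℕ) : Bool :=
  nodeN k (pT k) (sgn (k / 160) * sT (k % 160)) (sgn (k / 160) * cT (k % 160)) &&
  absLe (pT k) 1073741824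

def seg (a b c d i p0 p1 y0 y1 w : ℤ) : Bool :=
  let j : ℤ := i + 1
  let b0 : ℤ := (8 - i) ^ 3 * a + (2048 - 48 * i ^ 2 + 3 * i ^ 3) * b +
    (512 + 192 * i + 24 * i ^ 2 - 3 * i ^ 3) * c + i ^ 3 * d
  let b3 : ℤ := (8 - j) ^ 3 * a + (2048 - 48 * j ^ 2 + 3 * j ^ 3) * b +
    (512 + 192 * j + 24 * j ^ 2 - 3 * j ^ 3) * c + j ^ 3 * d
  let b1 : ℤ := b0 + (-(8 - i) ^ 2 * a + (3 * i ^ 2 - 32 * i) * b + (64 + 16 * i - 3 * i ^ 2) * c + i ^ 2 * d)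
  let b2 : ℤ := b3 - (-(8 - j) ^ 2 * a + (3 * j ^ 2 - 32 * j) * b + (64 + 16 * j - 3 * j ^ 2) * c + j ^ 2 * d)
  let u : ℤ := 38010 * w
  let q0 : ℤ := 2 * (y0 * p0) - y0 * y0 - u
  let q1 : ℤ := y0 * p1 + y1 * p0 - y0 * y1 - u
  let q2 : ℤ := 2 * (y1 * p1) - y1 * y1 - u
  decide (1024 * b0 ≤ 3 * q0) && decide (1024 * b1 ≤ q0 + 2 * q1) &&
    decide (1024 * b2 ≤ 2 * q1 + q2) && decide (1024 * b3 ≤ 3 * q2)

def chkS (k : ℕ) : Bool :=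
  seg (rT (k / 8 - 1)) (rT (k / 8)) (rT (k / 8 + 1)) (rT (k / 8 + 2)) ((k % 8 : ℕ) : ℤ)
    (pT k) (pT (k + 1)) (yT k) (yT (k + 1)) (max |yT k| |yT (k + 1)|)

def wT (m : ℕ) : ℤ := ((wl.getD m 0 : ℕ) : ℤ)

def chkW (k : ℕ) : Bool := absLe (yT k) (wT (k / 152)) && absLe (yT (k + 1)) (wT (k / 152))

end Pool.Agent.Helper42.RH
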