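import Mathlib

open MeasureTheory Set
open scoped BigOperators

namespace Pool.Agent.Helper42.RH

/-- the hat function -/
noncomputable def hat (t : ℝ) : ℝ := max 0 (1 - |t|)

lemma hat_cont : Continuous hat := by unfold hat; fun_prop

lemma hat_nonneg (t : ℝ) : 0 ≤ hat t := le_max_left _ _

lemma hat_zero {t : ℝ} (h : 1 ≤ |t|) : hat t = 0 := by
  unfold hat; exact max_eq_left (by linarith)

lemma hat_pos {t : ℝ} (h0 : 0 ≤ t) (h1 : t ≤ 1) : hat t = 1 - t := by
  unfold hat; rw [abs_of_nonneg h0]; exact max_eq_right (by linarith)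

lemma hat_neg {t : ℝ} (h0 : t ≤ 0) (h1 : -1 ≤ t) : hat t = 1 + t := by
  unfold hat; rw [abs_of_nonpos h0]; rw [max_eq_right (by linarith)]; ring

lemma hat_even (t : ℝ) : hat (-t) = hat t := by unfold hat; rw [abs_neg]

/-- the correlation of two hats -/
noncomputable def B3 (d : ℝ) : ℝ := ∫ t in (-1 : ℝ)..1, hat t * hat (t + d)

lemma ii_poly {f g : ℝ → ℝ} {a b : ℝ} (hab : a ≤ b) (h : ∀ t, a ≤ t → t ≤ b → f t = g t) :
    ∫ t in a..b, f t = ∫ t in a..b, g t := by
  apply intervalIntegral.integral_congr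
  intro t ht
  rw [uIcc_of_le hab] at ht
  exact h t ht.1 ht.2

lemma hh_int (d a b : ℝ) : IntervalIntegrable (fun t => hat t * hat (t + d)) volume a b := by
  apply Continuous.intervalIntegrable
  have := hat_cont
  fun_prop

lemma cubic_int (c0 c1 c2 a b : ℝ) : ∫ t in a..b, (c0 + c1 * t + c2 * t ^ 2) =
    c0 * (b - a) + c1 * (b ^ 2 - a ^ 2) / 2 + c2 * (b ^ 3 - a ^ 3) / 3 := by
  rw [intervalIntegral.integral_add, intervalIntegral.integral_add, intervalIntegral.integral_const,
    intervalIntegral.integral_const_mul, intervalIntegral.integral_const_mul, integral_id, integral_pow]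
  · simp only [smul_eq_mul]; push_cast; ring
  · exact Continuous.intervalIntegrable (by fun_prop) _ _
  · exact Continuous.intervalIntegrable (by fun_prop) _ _
  · exact Continuous.intervalIntegrable (by fun_prop) _ _
  · exact Continuous.intervalIntegrable (by fun_prop) _ _

lemma B3_small {d : ℝ} (h0 : 0 ≤ d) (h1 : d ≤ 1) : B3 d = (4 - 6 * d ^ 2 + 3 * d ^ 3) / 6 := by
  unfold B3
  rw [← intervalIntegral.integral_add_adjacent_intervals (hh_int d (-1) (-d)) (hh_int d (-d) 1),
    ← intervalIntegral.integral_add_adjacent_intervals (hh_int d (-d) 0) (hh_int d 0 1),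
    ← intervalIntegral.integral_add_adjacent_intervals (hh_int d 0 (1 - d)) (hh_int d (1 - d) 1)]
  have e1 : ∫ t in (-1 : ℝ)..(-d), hat t * hat (t + d) = ∫ t in (-1 : ℝ)..(-d),
      ((1 + d) + (2 + d) * t + 1 * t ^ 2) := by
    apply ii_poly (by linarith)
    intro t h2 h3
    rw [hat_neg (by linarith) h2, hat_neg (by linarith) (by linarith)]; ring
  have e2 : ∫ t in (-d)..0, hat t * hat (t + d) = ∫ t in (-d)..0,
      ((1 - d) + (-d) * t + (-1) * t ^ 2) := by
    apply ii_poly (by linarith)
    intro t h2 h3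
    rw [hat_neg h3 (by linarith), hat_pos (by linarith) (by linarith)]; ring
  have e3 : ∫ t in (0 : ℝ)..(1 - d), hat t * hat (t + d) = ∫ t in (0 : ℝ)..(1 - d),
      ((1 - d) + (-2 + d) * t + 1 * t ^ 2) := by
    apply ii_poly (by linarith)
    intro t h2 h3
    rw [hat_pos h2 (by linarith), hat_pos (by linarith) (by linarith)]; ring
  have e4 : ∫ t in (1 - d)..1, hat t * hat (t + d) = ∫ t in (1 - d)..1,
      (0 + 0 * t + 0 * t ^ 2 : ℝ) := by
    apply ii_poly (by linarith)
    intro t h2 h3
    rw [hat_zero (t := t + d) (by rw [abs_of_nonneg (by linarith)]; linarith)]; ring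
  rw [e1, e2, e3, e4]
  simp only [cubic_int]
  ring

lemma B3_mid {d : ℝ} (h0 : 1 ≤ d) (h1 : d ≤ 2) : B3 d = (2 - d) ^ 3 / 6 := by
  unfold B3
  rw [← intervalIntegral.integral_add_adjacent_intervals (hh_int d (-1) (1 - d)) (hh_int d (1 - d) 1)]
  have e1 : ∫ t in (-1 : ℝ)..(1 - d), hat t * hat (t + d) = ∫ t in (-1 : ℝ)..(1 - d),
      ((1 - d) + (-d) * t + (-1) * t ^ 2) := by
    apply ii_poly (by linarith)
    intro t h2 h3
    rw [hat_neg (by linarith) h2, hat_pos (by linarith) (by linarith)]; ring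
  have e4 : ∫ t in (1 - d)..1, hat t * hat (t + d) = ∫ t in (1 - d)..1,
      (0 + 0 * t + 0 * t ^ 2 : ℝ) := by
    apply ii_poly (by linarith)
    intro t h2 h3
    rw [hat_zero (t := t + d) (by rw [abs_of_nonneg (by linarith)]; linarith)]; ring
  rw [e1, e4]
  simp only [cubic_int]
  ring

lemma B3_large {d : ℝ} (h0 : 2 ≤ |d|) : B3 d = 0 := by
  unfold B3
  have : ∫ t in (-1 : ℝ)..1, hat t * hat (t + d) = ∫ t in (-1 : ℝ)..1,
      (0 + 0 * t + 0 * t ^ 2 : ℝ) := by
    apply ii_poly (by norm_num)
    intro t h2 h3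
    rw [hat_zero (t := t + d)]
    · ring
    · rcases abs_cases d with h | h <;> rcases abs_cases (t + d) with h' | h' <;> linarith
  rw [this, cubic_int]; ring

/-- the integral over the line -/
lemma hat_int : Integrable hat := by
  apply hat_cont.integrable_of_hasCompactSupport
  apply HasCompactSupport.intro (isCompact_Icc (a := (-1 : ℝ)) (b := 1))
  intro t ht
  apply hat_zero
  by_contra h
  push Not at h
  rw [abs_lt] at h
  exact ht ⟨h.1.le, h.2.le⟩

lemma hat_integral : ∫ t, hat t = 1 := by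
  have h : ∫ t, hat t = ∫ t in (-1 : ℝ)..1, hat t := by
    rw [intervalIntegral.integral_of_le (by norm_num)]
    symm
    apply setIntegral_eq_integral_of_forall_compl_eq_zero
    intro t ht
    apply hat_zero
    by_contra h
    push Not at h
    rw [abs_lt] at h
    exact ht ⟨h.1, h.2.le⟩
  rw [h, ← intervalIntegral.integral_add_adjacent_intervals (b := 0)
    (hat_cont.intervalIntegrable _ _) (hat_cont.intervalIntegrable _ _)]
  have e1 : ∫ t in (-1 : ℝ)..0, hat t = ∫ t in (-1 : ℝ)..0, (1 + 1 * t + 0 * t ^ 2) := by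
    apply ii_poly (by norm_num)
    intro t h2 h3
    rw [hat_neg h3 h2]; ring
  have e2 : ∫ t in (0 : ℝ)..1, hat t = ∫ t in (0 : ℝ)..1, (1 + (-1) * t + 0 * t ^ 2) := by
    apply ii_poly (by norm_num)
    intro t h2 h3
    rw [hat_pos h2 h3]; ring
  rw [e1, e2]
  simp only [cubic_int]
  norm_num

lemma hat_mul_integral (d : ℝ) : ∫ t, hat t * hat (t + d) = B3 d := by
  unfold B3
  rw [intervalIntegral.integral_of_le (by norm_num)]
  symm
  apply setIntegral_eq_integral_of_forall_compl_eq_zero
  intro t ht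
  rw [hat_zero, zero_mul]
  by_contra h
  push Not at h
  rw [abs_lt] at h
  exact ht ⟨h.1, h.2.le⟩

lemma hat_shift_mul_integral (u v : ℝ) : ∫ t, hat (t - u) * hat (t - v) = B3 (u - v) := by
  rw [← hat_mul_integral, ← integral_sub_right_eq_self (fun t => hat t * hat (t + (u - v))) u]
  congr 1
  ext t
  congr 2
  ring

lemma B3_even (d : ℝ) : B3 (-d) = B3 d := by
  have h := hat_shift_mul_integral 0 d
  have h' := hat_shift_mul_integral d 0
  rw [zero_sub] at h
  rw [sub_zero] at h'
  rw [← h, ← h']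
  congr 1
  ext t
  ring

lemma hat_mul_int (u v : ℝ) : Integrable (fun t => hat (t - u) * hat (t - v)) := by
  have h1 : Continuous (fun t => hat (t - u) * hat (t - v)) := by
    have := hat_cont
    fun_prop
  apply h1.integrable_of_hasCompactSupport
  apply HasCompactSupport.intro (isCompact_Icc (a := (u - 1 : ℝ)) (b := u + 1))
  intro t ht
  rw [hat_zero, zero_mul]
  by_contra h
  push Not at h
  rw [abs_lt] at h
  exact ht ⟨by linarith [h.1], by linarith [h.2]⟩

/-- lower bound for a quadratic form in hats -/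
theorem quad_lower {ι : Type*} (s : Finset ι) (w u : ι → ℝ) (α β lam : ℝ) (hαβ : α ≤ β)
    (hu : ∀ a ∈ s, α ≤ u a ∧ u a ≤ β) :
    2 * lam * ∑ a ∈ s, w a - lam ^ 2 * (β - α + 2) ≤
      ∑ a ∈ s, ∑ b ∈ s, w a * w b * B3 (u a - u b) := by
  set F : ℝ → ℝ := fun t => ∑ a ∈ s, w a * hat (t - u a) with hF
  have hFc : Continuous F := by
    have := hat_cont
    fun_prop
  have hF0 : ∀ t, t ∉ Set.Icc (α - 1) (β + 1) → F t = 0 := by
    intro t ht
    simp only [hF]
    refine Finset.sum_eq_zero fun a ha => ?_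
    rw [hat_zero, mul_zero]
    obtain ⟨h1, h2⟩ := hu a ha
    by_contra h
    push Not at h
    rw [abs_lt] at h
    exact ht ⟨by linarith [h.1], by linarith [h.2]⟩
  have hI1 : ∫ t in Set.Icc (α - 1) (β + 1), F t = ∑ a ∈ s, w a := by
    rw [setIntegral_eq_integral_of_forall_compl_eq_zero hF0]
    simp only [hF]
    rw [integral_finsetSum]
    · refine Finset.sum_congr rfl fun a _ => ?_
      rw [integral_const_mul, integral_sub_right_eq_self hat (u a), hat_integral, mul_one]
    · intro a _
      exact (hat_int.comp_sub_right (u a)).const_mul _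
  have hI2 : ∫ t in Set.Icc (α - 1) (β + 1), F t ^ 2 = ∑ a ∈ s, ∑ b ∈ s, w a * w b * B3 (u a - u b) := by
    rw [setIntegral_eq_integral_of_forall_compl_eq_zero (fun t ht => by rw [hF0 t ht]; norm_num)]
    have e : ∀ t, F t ^ 2 = ∑ a ∈ s, ∑ b ∈ s, w a * w b * (hat (t - u a) * hat (t - u b)) := by
      intro t
      simp only [hF]
      rw [sq, Finset.sum_mul_sum]
      refine Finset.sum_congr rfl fun a _ => Finset.sum_congr rfl fun b _ => ?_
      ring
    simp_rw [e]
    rw [integral_finsetSum]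
    · refine Finset.sum_congr rfl fun a _ => ?_
      rw [integral_finsetSum]
      · refine Finset.sum_congr rfl fun b _ => ?_
        rw [integral_const_mul, hat_shift_mul_integral]
      · intro b _
        exact (hat_mul_int _ _).const_mul _
    · intro a _
      apply integrable_finsetSum
      intro b _
      exact (hat_mul_int _ _).const_mul _
  have hpos : 0 ≤ ∫ t in Set.Icc (α - 1) (β + 1), (F t - lam) ^ 2 :=
    integral_nonneg fun t => sq_nonneg _
  have hexp : ∫ t in Set.Icc (α - 1) (β + 1), (F t - lam) ^ 2 =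
      (∫ t in Set.Icc (α - 1) (β + 1), F t ^ 2) - 2 * lam * (∫ t in Set.Icc (α - 1) (β + 1), F t) +
        lam ^ 2 * (β - α + 2) := by
    have e : ∀ t, (F t - lam) ^ 2 = F t ^ 2 - 2 * lam * F t + lam ^ 2 := fun t => by ring
    simp_rw [e]
    rw [integral_add, integral_sub, integral_const_mul, setIntegral_const]
    · rw [Measure.real, Real.volume_Icc, ENNReal.toReal_ofReal (by linarith), smul_eq_mul]
      ring
    · exact (hFc.pow 2).continuousOn.integrableOn_Icc
    · exact (continuous_const.mul hFc).continuousOn.integrableOn_Icc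
    · exact ((hFc.pow 2).sub (continuous_const.mul hFc)).continuousOn.integrableOn_Icc
    · exact continuous_const.continuousOn.integrableOn_Icc
  rw [hexp, hI1, hI2] at hpos
  linarith

end Pool.Agent.Helper42.RH
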