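import Pool.Agent.Helper42.RH.Phi

open Complex Filter Topology Set MeasureTheory
open scoped BigOperators ComplexConjugate

namespace Pool.Agent.Helper42.RH

open H370 H370.GramAux H370.Expl

/-- base values for the rotation -/
lemma trig_base : |Real.cos (Real.pi / 160) - 1099299686445 / 2 ^ 40| ≤ 1 / 10 ^ 12 ∧
    |Real.sin (Real.pi / 160) - 21587473157 / 2 ^ 40| ≤ 1 / 10 ^ 12 := by
  have hp1 := Real.pi_gt_d20
  have hp2 := Real.pi_lt_d20
  set β : ℝ := 3.14159265358979323846 / 160 with hβ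
  have hβ0 : 0 ≤ β := by rw [hβ]; norm_num
  have hβ1 : β ≤ 1 := by rw [hβ]; norm_num
  have hd : |Real.pi / 160 - β| ≤ 1 / 10 ^ 20 := by
    rw [hβ, abs_le]
    constructor
    · norm_num at hp1 ⊢; linarith
    · norm_num at hp2 ⊢; linarith
  obtain ⟨h1, h2⟩ := trig12 hβ0 hβ1
  have h3 := Real.abs_cos_sub_cos_le (Real.pi / 160) β
  have h4 := Real.abs_sin_sub_sin_le (Real.pi / 160) β
  have h5 := h3.trans hd
  have h6 := h4.trans hd
  rw [abs_le] at h1 h2 h5 h6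
  constructor
  · rw [abs_le]
    have a1 := h1.1
    have a2 := h1.2
    rw [hβ] at a1 a2
    constructor
    · have b1 := h5.1
      norm_num at a1 b1 ⊢
      linarith
    · have b2 := h5.2
      norm_num at a2 b2 ⊢
      linarith
  · rw [abs_le]
    have a1 := h2.1
    have a2 := h2.2
    rw [hβ] at a1 a2
    constructor
    · have b1 := h6.1
      norm_num at a1 b1 ⊢
      linarith
    · have b2 := h6.2
      norm_num at a2 b2 ⊢
      linarith

/-- error propagation for a table of sines and cosines -/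
theorem trig_table (s c : ℕ → ℤ) (hs0 : s 0 = 0) (hc0 : c 0 = 2 ^ 40)
    (h : ∀ r < 160, |s (r + 1) * 2 ^ 40 - (s r * 1099299686445 + c r * 21587473157)| ≤ 2 ^ 40 ∧
      |c (r + 1) * 2 ^ 40 - (c r * 1099299686445 - s r * 21587473157)| ≤ 2 ^ 40) :
    ∀ r : ℕ, r ≤ 160 → |Real.sin (Real.pi * r / 160) - s r / 2 ^ 40| ≤ (1.02 ^ r - 1) * (15 / 10 ^ 11) ∧
      |Real.cos (Real.pi * r / 160) - c r / 2 ^ 40| ≤ (1.02 ^ r - 1) * (15 / 10 ^ 11) := by
  obtain ⟨hb1, hb2⟩ := trig_base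
  intro r
  induction r with
  | zero =>
    intro _
    rw [hs0, hc0]
    norm_num
  | succ r ih =>
    intro hr
    obtain ⟨i1, i2⟩ := ih (by omega)
    obtain ⟨j1, j2⟩ := h r (by omega)
    have j1' : |(s (r + 1) : ℝ) / 2 ^ 40 - (s r / 2 ^ 40 * (1099299686445 / 2 ^ 40) +
        c r / 2 ^ 40 * (21587473157 / 2 ^ 40))| ≤ 1 / 2 ^ 40 := by
      have : |((s (r + 1) : ℝ) * 2 ^ 40 - (s r * 1099299686445 + c r * 21587473157))| ≤ 2 ^ 40 := by
        exact_mod_cast j1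
      have e : (s (r + 1) : ℝ) / 2 ^ 40 - (s r / 2 ^ 40 * (1099299686445 / 2 ^ 40) +
        c r / 2 ^ 40 * (21587473157 / 2 ^ 40)) =
        ((s (r + 1) : ℝ) * 2 ^ 40 - (s r * 1099299686445 + c r * 21587473157)) / (2 ^ 40 * 2 ^ 40) := by
        field_simp
      rw [e, abs_div, abs_of_pos (by positivity : (0 : ℝ) < 2 ^ 40 * 2 ^ 40), div_le_div_iff₀
        (by positivity) (by positivity)]
      linarith
    have j2' : |(c (r + 1) : ℝ) / 2 ^ 40 - (c r / 2 ^ 40 * (1099299686445 / 2 ^ 40) -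
        s r / 2 ^ 40 * (21587473157 / 2 ^ 40))| ≤ 1 / 2 ^ 40 := by
      have : |((c (r + 1) : ℝ) * 2 ^ 40 - (c r * 1099299686445 - s r * 21587473157))| ≤ 2 ^ 40 := by
        exact_mod_cast j2
      have e : (c (r + 1) : ℝ) / 2 ^ 40 - (c r / 2 ^ 40 * (1099299686445 / 2 ^ 40) -
        s r / 2 ^ 40 * (21587473157 / 2 ^ 40)) =
        ((c (r + 1) : ℝ) * 2 ^ 40 - (c r * 1099299686445 - s r * 21587473157)) / (2 ^ 40 * 2 ^ 40) := by
        field_simp
      rw [e, abs_div, abs_of_pos (by positivity : (0 : ℝ) < 2 ^ 40 * 2 ^ 40), div_le_div_iff₀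
        (by positivity) (by positivity)]
      linarith
    have harg : Real.pi * ((r + 1 : ℕ) : ℝ) / 160 = Real.pi * r / 160 + Real.pi / 160 := by
      push_cast; ring
    rw [harg, Real.sin_add, Real.cos_add, pow_succ (1.02 : ℝ) r]
    set S := Real.sin (Real.pi * r / 160)
    set Co := Real.cos (Real.pi * r / 160)
    set S1 := Real.sin (Real.pi / 160)
    set C1 := Real.cos (Real.pi / 160)
    set S' : ℝ := s r / 2 ^ 40
    set Co' : ℝ := c r / 2 ^ 40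
    set E : ℝ := 1.02 ^ r - 1
    have hS : |S| ≤ 1 := Real.abs_sin_le_one _
    have hCo : |Co| ≤ 1 := Real.abs_cos_le_one _
    have hE : (1.02 : ℝ) ^ r = E + 1 := by simp only [E]; ring
    rw [hE]
    have hE0 : 0 ≤ E := by
      have : (1 : ℝ) ≤ 1.02 ^ r := one_le_pow₀ (by norm_num)
      simp only [E]; linarith
    -- products
    have m1 : |S * C1 - S' * (1099299686445 / 2 ^ 40)| ≤ E * (15 / 10 ^ 11) * 0.99982 + 1 / 10 ^ 12 := by
      have e : S * C1 - S' * (1099299686445 / 2 ^ 40) =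
        (S - S') * (1099299686445 / 2 ^ 40) + S * (C1 - 1099299686445 / 2 ^ 40) := by ring
      rw [e]
      refine (abs_add_le _ _).trans (add_le_add ?_ ?_)
      · rw [abs_mul, abs_of_pos (by norm_num : (0 : ℝ) < 1099299686445 / 2 ^ 40)]
        exact mul_le_mul i1 (by norm_num) (by norm_num) (by positivity)
      · rw [abs_mul]
        calc |S| * |C1 - 1099299686445 / 2 ^ 40| ≤ 1 * (1 / 10 ^ 12) :=
            mul_le_mul hS hb1 (abs_nonneg _) (by norm_num)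
          _ = _ := by norm_num
    have m2 : |Co * S1 - Co' * (21587473157 / 2 ^ 40)| ≤ E * (15 / 10 ^ 11) * 0.01964 + 1 / 10 ^ 12 := by
      have e : Co * S1 - Co' * (21587473157 / 2 ^ 40) =
        (Co - Co') * (21587473157 / 2 ^ 40) + Co * (S1 - 21587473157 / 2 ^ 40) := by ring
      rw [e]
      refine (abs_add_le _ _).trans (add_le_add ?_ ?_)
      · rw [abs_mul, abs_of_pos (by norm_num : (0 : ℝ) < 21587473157 / 2 ^ 40)]
        exact mul_le_mul i2 (by norm_num) (by norm_num) (by positivity)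
      · rw [abs_mul]
        calc |Co| * |S1 - 21587473157 / 2 ^ 40| ≤ 1 * (1 / 10 ^ 12) :=
            mul_le_mul hCo hb2 (abs_nonneg _) (by norm_num)
          _ = _ := by norm_num
    have m3 : |Co * C1 - Co' * (1099299686445 / 2 ^ 40)| ≤ E * (15 / 10 ^ 11) * 0.99982 + 1 / 10 ^ 12 := by
      have e : Co * C1 - Co' * (1099299686445 / 2 ^ 40) =
        (Co - Co') * (1099299686445 / 2 ^ 40) + Co * (C1 - 1099299686445 / 2 ^ 40) := by ring
      rw [e]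
      refine (abs_add_le _ _).trans (add_le_add ?_ ?_)
      · rw [abs_mul, abs_of_pos (by norm_num : (0 : ℝ) < 1099299686445 / 2 ^ 40)]
        exact mul_le_mul i2 (by norm_num) (by norm_num) (by positivity)
      · rw [abs_mul]
        calc |Co| * |C1 - 1099299686445 / 2 ^ 40| ≤ 1 * (1 / 10 ^ 12) :=
            mul_le_mul hCo hb1 (abs_nonneg _) (by norm_num)
          _ = _ := by norm_num
    have m4 : |S * S1 - S' * (21587473157 / 2 ^ 40)| ≤ E * (15 / 10 ^ 11) * 0.01964 + 1 / 10 ^ 12 := by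
      have e : S * S1 - S' * (21587473157 / 2 ^ 40) =
        (S - S') * (21587473157 / 2 ^ 40) + S * (S1 - 21587473157 / 2 ^ 40) := by ring
      rw [e]
      refine (abs_add_le _ _).trans (add_le_add ?_ ?_)
      · rw [abs_mul, abs_of_pos (by norm_num : (0 : ℝ) < 21587473157 / 2 ^ 40)]
        exact mul_le_mul i1 (by norm_num) (by norm_num) (by positivity)
      · rw [abs_mul]
        calc |S| * |S1 - 21587473157 / 2 ^ 40| ≤ 1 * (1 / 10 ^ 12) :=
            mul_le_mul hS hb2 (abs_nonneg _) (by norm_num)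
          _ = _ := by norm_num
    rw [abs_le] at m1 m2 m3 m4 j1' j2'
    have hp : (1 : ℝ) / 2 ^ 40 ≤ 1 / 10 ^ 12 := by norm_num
    constructor
    · rw [abs_le]
      constructor
      · linarith [m1.1, m2.1, j1'.1, j1'.2]
      · linarith [m1.2, m2.2, j1'.1, j1'.2]
    · rw [abs_le]
      constructor
      · linarith [m3.1, m4.2, j2'.1, j2'.2]
      · linarith [m3.2, m4.1, j2'.1, j2'.2]

/-- the bound at the end -/
lemma pow_bound (r : ℕ) (hr : r ≤ 160) : ((1.02 : ℝ) ^ r - 1) * (15 / 10 ^ 11) ≤ 4 / 10 ^ 9 := by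
  have h1 : (1.02 : ℝ) ^ r ≤ 1.02 ^ 160 := pow_le_pow_right₀ (by norm_num) hr
  have h2 : (1.02 : ℝ) ^ 160 ≤ 24 := by norm_num
  have h3 : (1.02 : ℝ) ^ r - 1 ≤ 23 := by linarith
  calc ((1.02 : ℝ) ^ r - 1) * (15 / 10 ^ 11) ≤ 23 * (15 / 10 ^ 11) :=
      mul_le_mul_of_nonneg_right h3 (by norm_num)
    _ ≤ 4 / 10 ^ 9 := by norm_num

/-- periodicity -/
lemma trig_all (s c : ℕ → ℤ) (hs0 : s 0 = 0) (hc0 : c 0 = 2 ^ 40)
    (h : ∀ r < 160, |s (r + 1) * 2 ^ 40 - (s r * 1099299686445 + c r * 21587473157)| ≤ 2 ^ 40 ∧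
      |c (r + 1) * 2 ^ 40 - (c r * 1099299686445 - s r * 21587473157)| ≤ 2 ^ 40) (k : ℕ) :
    |Real.sin (Real.pi * k / 160) - (-1) ^ (k / 160) * s (k % 160) / 2 ^ 40| ≤ 4 / 10 ^ 9 ∧
    |Real.cos (Real.pi * k / 160) - (-1) ^ (k / 160) * c (k % 160) / 2 ^ 40| ≤ 4 / 10 ^ 9 := by
  obtain ⟨h1, h2⟩ := trig_table s c hs0 hc0 h (k % 160) (by omega)
  have h3 := pow_bound (k % 160) (by omega)
  have harg : Real.pi * k / 160 = Real.pi * ((k % 160 : ℕ) : ℝ) / 160 + ((k / 160 : ℕ) : ℝ) * Real.pi := by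
    have : (k : ℝ) = ((k % 160 : ℕ) : ℝ) + 160 * ((k / 160 : ℕ) : ℝ) := by
      exact_mod_cast (Nat.mod_add_div k 160).symm
    conv_lhs => rw [this]
    ring
  rw [harg, Real.sin_add_nat_mul_pi, Real.cos_add_nat_mul_pi]
  have hm : |(-1 : ℝ) ^ (k / 160)| = 1 := by rw [abs_pow]; simp
  constructor
  · have e : (-1 : ℝ) ^ (k / 160) * Real.sin (Real.pi * ((k % 160 : ℕ) : ℝ) / 160) -
        (-1) ^ (k / 160) * s (k % 160) / 2 ^ 40 =
        (-1) ^ (k / 160) * (Real.sin (Real.pi * ((k % 160 : ℕ) : ℝ) / 160) - s (k % 160) / 2 ^ 40) := by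
      ring
    rw [e, abs_mul, hm, one_mul]
    exact h1.trans h3
  · have e : (-1 : ℝ) ^ (k / 160) * Real.cos (Real.pi * ((k % 160 : ℕ) : ℝ) / 160) -
        (-1) ^ (k / 160) * c (k % 160) / 2 ^ 40 =
        (-1) ^ (k / 160) * (Real.cos (Real.pi * ((k % 160 : ℕ) : ℝ) / 160) - c (k % 160) / 2 ^ 40) := by
      ring
    rw [e, abs_mul, hm, one_mul]
    exact h2.trans h3

lemma fin_ineq {x x' q q' : ℝ} (hx5 : 5 ≤ x) (hq1 : 1.2 ≤ q) (hq2 : q ≤ 1.21) (hx'0 : 0 ≤ x')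
    (hx' : x' ≤ x + 1 / 10 ^ 10)
    (t3 : -(1 / 10 ^ 9 * (x ^ 2 - 2) + 1.22 * (1 / 10 ^ 10 * (2 * x + 1))) ≤
      q * (x ^ 2 - 2) - q' * (x' ^ 2 - 2)) :
    q' * (x' ^ 2 - 2) / 2 ^ 30 +
      2 * (1 / 10 ^ 10 + x' * (4 / 10 ^ 9)) + 2 * (1 / 10 ^ 9 + 1.22 * (4 / 10 ^ 9)) +
      (1 / 10 ^ 9 * (x ^ 2 - 2) + 1.22 * (1 / 10 ^ 10 * (2 * x + 1))) ≤
      2 / 10 ^ 8 * (q * (x ^ 2 - 2)) := by
  generalize hz : q' * (x' ^ 2 - 2) = z at *
  have b3 : 5 * x ≤ x ^ 2 := by nlinarith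
  have b4 : 25 ≤ x ^ 2 := by nlinarith
  generalize hX : x ^ 2 = X at *
  have h1 : q * (X - 2) ≤ 1.21 * (X - 2) := mul_le_mul_of_nonneg_right hq2 (by linarith)
  have h2 : 1.2 * (X - 2) ≤ q * (X - 2) := mul_le_mul_of_nonneg_right hq1 (by linarith)
  generalize q * (X - 2) = w at *
  norm_num at *
  linarith

lemma abs4 {a b c d A B C D : ℝ} (ha : |a| ≤ A) (hb : |b| ≤ B) (hc : |c| ≤ C) (hd : |d| ≤ D) :
    |-a + 2 * b - 2 * c - d| ≤ A + 2 * B + 2 * C + D := by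
  rw [abs_le] at *
  obtain ⟨a1, a2⟩ := ha
  obtain ⟨b1, b2⟩ := hb
  obtain ⟨c1, c2⟩ := hc
  obtain ⟨d1, d2⟩ := hd
  constructor <;> linarith

/-- error analysis at a node -/
lemma node_err {x x' s s' c c' q q' p φ : ℝ} (hx : |x - x'| ≤ 1 / 10 ^ 10) (hs : |s - s'| ≤ 4 / 10 ^ 9)
    (hc : |c - c'| ≤ 4 / 10 ^ 9) (hq : |q - q'| ≤ 1 / 10 ^ 9) (hs1 : |s| ≤ 1) (hc1 : |c| ≤ 1)
    (hx5 : 5 ≤ x) (hq1 : 1.2 ≤ q) (hq2 : q ≤ 1.21) (hp : |p| ≤ 1)
    (hcheck : |p * (q' * (x' ^ 2 - 2)) - 2 * (x' * s' - q' * c')| ≤ q' * (x' ^ 2 - 2) / 2 ^ 30)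
    (hφ : q * (x ^ 2 - 2) * φ = 2 * (x * s - q * c)) : |φ - p| ≤ 2 / 10 ^ 8 := by
  have hD : 0 < q * (x ^ 2 - 2) := by
    apply mul_pos (by linarith)
    nlinarith
  have hxx := abs_le.mp hx
  have hqq := abs_le.mp hq
  have hss := abs_le.mp hs
  have hcc := abs_le.mp hc
  have hs1' := abs_le.mp hs1
  have hc1' := abs_le.mp hc1
  have hx'0 : 0 ≤ x' := by linarith
  have hx' : x' ≤ x + 1 / 10 ^ 10 := by linarith
  -- terms
  have t1 : |x * s - x' * s'| ≤ 1 / 10 ^ 10 + x' * (4 / 10 ^ 9) := by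
    have e : x * s - x' * s' = (x - x') * s + x' * (s - s') := by ring
    rw [e]
    refine (abs_add_le _ _).trans (add_le_add ?_ ?_)
    · rw [abs_mul]
      calc |x - x'| * |s| ≤ 1 / 10 ^ 10 * 1 := mul_le_mul hx hs1 (abs_nonneg _) (by norm_num)
        _ = _ := by ring
    · rw [abs_mul, abs_of_nonneg hx'0]
      exact mul_le_mul_of_nonneg_left hs hx'0
  have t2 : |q * c - q' * c'| ≤ 1 / 10 ^ 9 + 1.22 * (4 / 10 ^ 9) := by
    have e : q * c - q' * c' = (q - q') * c + q' * (c - c') := by ring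
    rw [e]
    refine (abs_add_le _ _).trans (add_le_add ?_ ?_)
    · rw [abs_mul]
      calc |q - q'| * |c| ≤ 1 / 10 ^ 9 * 1 := mul_le_mul hq hc1 (abs_nonneg _) (by norm_num)
        _ = _ := by ring
    · rw [abs_mul, abs_of_nonneg (by linarith : 0 ≤ q')]
      exact mul_le_mul (by linarith) hc (abs_nonneg _) (by norm_num)
  have t4 : |x ^ 2 - x' ^ 2| ≤ 1 / 10 ^ 10 * (2 * x + 1) := by
    have e : x ^ 2 - x' ^ 2 = (x - x') * (x + x') := by ring
    rw [e, abs_mul, abs_of_nonneg (by linarith : 0 ≤ x + x')]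
    apply mul_le_mul hx (by linarith) (by linarith) (by norm_num)
  have t3 : |q * (x ^ 2 - 2) - q' * (x' ^ 2 - 2)| ≤ 1 / 10 ^ 9 * (x ^ 2 - 2) +
      1.22 * (1 / 10 ^ 10 * (2 * x + 1)) := by
    have e : q * (x ^ 2 - 2) - q' * (x' ^ 2 - 2) = (q - q') * (x ^ 2 - 2) + q' * (x ^ 2 - x' ^ 2) := by ring
    rw [e]
    refine (abs_add_le _ _).trans (add_le_add ?_ ?_)
    · rw [abs_mul, abs_of_nonneg (by nlinarith : 0 ≤ x ^ 2 - 2)]
      exact mul_le_mul_of_nonneg_right hq (by nlinarith)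
    · rw [abs_mul, abs_of_nonneg (by linarith : 0 ≤ q')]
      exact mul_le_mul (by linarith) t4 (abs_nonneg _) (by norm_num)
  have key : |q * (x ^ 2 - 2) * (φ - p)| ≤ q' * (x' ^ 2 - 2) / 2 ^ 30 +
      2 * (1 / 10 ^ 10 + x' * (4 / 10 ^ 9)) + 2 * (1 / 10 ^ 9 + 1.22 * (4 / 10 ^ 9)) +
      (1 / 10 ^ 9 * (x ^ 2 - 2) + 1.22 * (1 / 10 ^ 10 * (2 * x + 1))) := by
    have e : q * (x ^ 2 - 2) * (φ - p) = -(p * (q' * (x' ^ 2 - 2)) - 2 * (x' * s' - q' * c')) +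
        2 * (x * s - x' * s') - 2 * (q * c - q' * c') - p * (q * (x ^ 2 - 2) - q' * (x' ^ 2 - 2)) := by
      linear_combination hφ
    rw [e]
    have a1 : |p * (q * (x ^ 2 - 2) - q' * (x' ^ 2 - 2))| ≤ 1 / 10 ^ 9 * (x ^ 2 - 2) +
        1.22 * (1 / 10 ^ 10 * (2 * x + 1)) := by
      rw [abs_mul]
      calc |p| * |q * (x ^ 2 - 2) - q' * (x' ^ 2 - 2)| ≤ 1 * |q * (x ^ 2 - 2) - q' * (x' ^ 2 - 2)| :=
          mul_le_mul_of_nonneg_right hp (abs_nonneg _)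
        _ ≤ _ := by rw [one_mul]; exact t3
    exact abs4 hcheck t1 t2 a1
  rw [abs_mul, abs_of_pos hD] at key
  have hfin := fin_ineq hx5 hq1 hq2 hx'0 hx' (abs_le.mp t3).1
  have h7 : q * (x ^ 2 - 2) * |φ - p| ≤ q * (x ^ 2 - 2) * (2 / 10 ^ 8) :=
    key.trans (hfin.trans (le_of_eq (by ring)))
  exact le_of_mul_le_mul_left h7 hD

end Pool.Agent.Helper42.RH
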