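import Pool.Agent.Helper42.RH.Chk
import Pool.Agent.Helper42.RH.Node
import Pool.Agent.Helper42.RH.Asm2

open Complex Filter Topology Set MeasureTheory
open scoped BigOperators ComplexConjugate

namespace Pool.Agent.Helper42.RH

open H370 H370.GramAux H370.Expl

lemma absLe_iff (a b : ℤ) : absLe a b = true ↔ |a| ≤ b := by
  unfold absLe
  rw [Bool.and_eq_true, decide_eq_true_eq, decide_eq_true_eq, abs_le]
  constructor
  · rintro ⟨h1, h2⟩; exact ⟨h2, h1⟩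
  · rintro ⟨h1, h2⟩; exact ⟨h2, h1⟩

lemma dot_nil (m : List ℤ) : dot [] m = 0 := rfl
lemma dot_cons_nil (a : ℤ) (l : List ℤ) : dot (a :: l) [] = 0 := rfl
lemma dot_cons_cons (a b : ℤ) (l m : List ℤ) : dot (a :: l) (b :: m) = a * b + dot l m := rfl

lemma dot_eq (l m : List ℤ) : dot l m = ∑ i ∈ Finset.range l.length, l.getD i 0 * m.getD i 0 := by
  induction l generalizing m with
  | nil => simp [dot_nil]
  | cons a l ih =>
    cases m with
    | nil => rw [dot_cons_nil]; simp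
    | cons b m =>
      rw [dot_cons_cons, ih, List.length_cons, Finset.sum_range_succ']
      simp only [List.getD_cons_succ, List.getD_cons_zero]
      ring

lemma getD_drop' (l : List ℤ) (m i : ℕ) : (l.drop m).getD i 0 = l.getD (i + m) 0 := by
  rw [List.getD_eq_getElem?_getD, List.getD_eq_getElem?_getD, List.getElem?_drop, Nat.add_comm]

lemma sum_getD (l : List ℤ) : ∑ i ∈ Finset.range l.length, l.getD i 0 = l.sum := by
  induction l with
  | nil => simp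
  | cons a l ih =>
    rw [List.length_cons, Finset.sum_range_succ', List.sum_cons, ← ih]
    simp only [List.getD_cons_succ, List.getD_cons_zero]
    ring

lemma cl_length : cl.length = 601 := by decide +kernel

lemma cl_sum : cl.sum = 430603 := by decide +kernel

/-- the coefficients -/
noncomputable def cf (i : ℕ) : ℝ := ((cl.getD i 0 : ℤ) : ℝ) / 2 ^ 20

lemma cf_zero (i : ℕ) (h : 601 ≤ i) : cf i = 0 := by
  unfold cf
  rw [List.getD_eq_default _ _ (by rw [cl_length]; exact h)]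
  simp

lemma cast_sum_aux (l : List ℤ) (n : ℕ) (v : ℤ) (h : ∑ i ∈ Finset.range n, l.getD i 0 = v) :
    ∑ i ∈ Finset.range n, ((l.getD i 0 : ℤ) : ℝ) / 2 ^ 20 = (v : ℝ) / 2 ^ 20 := by
  rw [← Finset.sum_div, ← h, Int.cast_sum]

lemma cf_sum : ∑ i ∈ Finset.range 601, cf i = ((430603 : ℤ) : ℝ) / 2 ^ 20 := by
  unfold cf
  exact cast_sum_aux cl 601 430603 (by rw [← cl_sum, ← sum_getD, cl_length])

lemma Rc_eq (m : ℕ) (h : chkR m = true) : Rc 601 cf m = rT m / 2 ^ 40 := by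
  unfold chkR at h
  rw [decide_eq_true_eq, dot_eq, cl_length] at h
  unfold Rc cf
  rw [← h]
  push_cast
  rw [Finset.sum_div]
  refine Finset.sum_congr rfl fun i _ => ?_
  rw [getD_drop']
  ring

/-- the node inequality -/
lemma node_real {k : ℕ} (hk : 152 ≤ k) (hk2 : k ≤ 4816) (h : chkN k = true)
    (hT : ∀ r < 160, chkT r = true) (hs0 : sT 0 = 0) (hc0 : cT 0 = 1099511627776) :
    |KK (Real.pi * k / 80) - pT k / 2 ^ 30| ≤ 2 / 10 ^ 8 := by
  have hp1 := Real.pi_gt_d20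
  have hp2 := Real.pi_lt_d20
  have hpi3 := Real.pi_gt_three
  unfold chkN nodeN at h
  rw [Bool.and_eq_true] at h
  simp only [absLe_iff] at h
  obtain ⟨h1, h2⟩ := h
  have hT' : ∀ r < 160, |sT (r + 1) * 2 ^ 40 - (sT r * 1099299686445 + cT r * 21587473157)| ≤ 2 ^ 40 ∧
      |cT (r + 1) * 2 ^ 40 - (cT r * 1099299686445 - sT r * 21587473157)| ≤ 2 ^ 40 := by
    intro r hr
    have := hT r hr
    unfold chkT at this
    rw [Bool.and_eq_true] at this
    simp only [absLe_iff] at this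
    norm_num
    exact this
  obtain ⟨g1, g2⟩ := trig_all sT cT hs0 (by rw [hc0]; norm_num) hT' k
  have hsgn : ((sgn (k / 160) : ℤ) : ℝ) = (-1) ^ (k / 160) := by
    unfold sgn
    rcases Nat.even_or_odd (k / 160) with he | ho
    · rw [if_pos (Nat.even_iff.mp he), he.neg_one_pow]; norm_num
    · rw [if_neg (by rw [Nat.odd_iff.mp ho]; norm_num), ho.neg_one_pow]; norm_num
  have hk' : (152 : ℝ) ≤ k := by exact_mod_cast hk
  have hk2' : (k : ℝ) ≤ 4816 := by exact_mod_cast hk2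
  have hq := qq_num
  have hqq := abs_le.mp hq
  have hpq : |((pT k : ℤ) : ℝ) / 2 ^ 30| ≤ 1 := by
    rw [abs_div, abs_of_pos (by norm_num : (0 : ℝ) < 2 ^ 30), div_le_one (by norm_num)]
    have : |((pT k : ℤ) : ℝ)| ≤ 1073741824 := by exact_mod_cast h2
    norm_num
    exact this
  have harg : Real.pi * k / 80 / 2 = Real.pi * k / 160 := by ring
  refine node_err (x := Real.pi * k / 80) (x' := 3454217652358 * k / (80 * 2 ^ 40))
    (s := Real.sin (Real.pi * k / 160)) (s' := (-1) ^ (k / 160) * sT (k % 160) / 2 ^ 40)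
    (c := Real.cos (Real.pi * k / 160)) (c' := (-1) ^ (k / 160) * cT (k % 160) / 2 ^ 40)
    (q := qq) (q' := 1328716087935 / 2 ^ 40) ?_ g1 g2 hq (Real.abs_sin_le_one _) (Real.abs_cos_le_one _)
    ?_ ?_ ?_ hpq ?_ ?_
  · have e : Real.pi * k / 80 - 3454217652358 * k / (80 * 2 ^ 40) =
        (Real.pi - 3454217652358 / 2 ^ 40) * (k / 80) := by ring
    rw [e, abs_mul, abs_of_pos (by positivity : (0 : ℝ) < k / 80)]
    have hpi : |Real.pi - 3454217652358 / 2 ^ 40| ≤ 1 / 10 ^ 12 := by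
      rw [abs_le]
      constructor
      · norm_num at hp1 ⊢; linarith
      · norm_num at hp2 ⊢; linarith
    calc |Real.pi - 3454217652358 / 2 ^ 40| * ((k : ℝ) / 80) ≤ 1 / 10 ^ 12 * (4816 / 80) :=
        mul_le_mul hpi (by linarith) (by positivity) (by norm_num)
      _ ≤ _ := by norm_num
  · nlinarith
  · have := hqq.1
    norm_num at this ⊢
    linarith
  · have := hqq.2
    norm_num at this ⊢
    linarith
  · -- the integer check
    have h1' : |(pT k : ℝ) * (1328716087935 * (3454217652358 * k * (3454217652358 * k) -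
        12800 * (1099511627776 * 1099511627776))) - 2 * (1073741824 * 1099511627776) *
        (80 * (3454217652358 * k) * ((-1) ^ (k / 160) * sT (k % 160)) -
          6400 * 1328716087935 * ((-1) ^ (k / 160) * cT (k % 160)))| ≤
        1328716087935 * (3454217652358 * k * (3454217652358 * k) -
        12800 * (1099511627776 * 1099511627776)) := by
      rw [← hsgn]
      exact_mod_cast h1
    have e1 : (pT k : ℝ) / 2 ^ 30 * (1328716087935 / 2 ^ 40 * ((3454217652358 * k / (80 * 2 ^ 40)) ^ 2 - 2)) -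
        2 * (3454217652358 * k / (80 * 2 ^ 40) * ((-1) ^ (k / 160) * sT (k % 160) / 2 ^ 40) -
          1328716087935 / 2 ^ 40 * ((-1) ^ (k / 160) * cT (k % 160) / 2 ^ 40)) =
        ((pT k : ℝ) * (1328716087935 * (3454217652358 * k * (3454217652358 * k) -
        12800 * (1099511627776 * 1099511627776))) - 2 * (1073741824 * 1099511627776) *
        (80 * (3454217652358 * k) * ((-1) ^ (k / 160) * sT (k % 160)) -
          6400 * 1328716087935 * ((-1) ^ (k / 160) * cT (k % 160)))) / (6400 * 2 ^ 120 * 2 ^ 30) := by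
      ring
    have e2 : 1328716087935 / 2 ^ 40 * ((3454217652358 * (k : ℝ) / (80 * 2 ^ 40)) ^ 2 - 2) / 2 ^ 30 =
        (1328716087935 * (3454217652358 * k * (3454217652358 * k) -
        12800 * (1099511627776 * 1099511627776))) / (6400 * 2 ^ 120 * 2 ^ 30) := by
      ring
    rw [e1, e2, abs_div, abs_of_pos (by positivity : (0 : ℝ) < 6400 * 2 ^ 120 * 2 ^ 30)]
    exact div_le_div_of_nonneg_right h1' (by positivity)
  · have := KK_eq (Real.pi * k / 80)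
    unfold PPx at this
    rw [harg] at this
    linarith

/-- a segment, real version -/
lemma seg_real {a b c d i p0 p1 y0 y1 w s φ : ℝ} (hs0 : 0 ≤ s) (hs1 : s ≤ 1)
    (hw0 : |y0| ≤ w) (hw1 : |y1| ≤ w)
    (hφ : |φ - (p0 * (1 - s) + p1 * s) / 2 ^ 30| ≤ 19005 / 2 ^ 30)
    (h0 : 1024 * ((8 - i) ^ 3 * a + (2048 - 48 * i ^ 2 + 3 * i ^ 3) * b +
      (512 + 192 * i + 24 * i ^ 2 - 3 * i ^ 3) * c + i ^ 3 * d) ≤ 3 * (2 * (y0 * p0) - y0 * y0 - 38010 * w))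
    (h1 : 1024 * ((8 - i) ^ 3 * a + (2048 - 48 * i ^ 2 + 3 * i ^ 3) * b +
      (512 + 192 * i + 24 * i ^ 2 - 3 * i ^ 3) * c + i ^ 3 * d +
      (-(8 - i) ^ 2 * a + (3 * i ^ 2 - 32 * i) * b + (64 + 16 * i - 3 * i ^ 2) * c + i ^ 2 * d)) ≤
      (2 * (y0 * p0) - y0 * y0 - 38010 * w) + 2 * (y0 * p1 + y1 * p0 - y0 * y1 - 38010 * w))
    (h2 : 1024 * ((8 - (i + 1)) ^ 3 * a + (2048 - 48 * (i + 1) ^ 2 + 3 * (i + 1) ^ 3) * b +
      (512 + 192 * (i + 1) + 24 * (i + 1) ^ 2 - 3 * (i + 1) ^ 3) * c + (i + 1) ^ 3 * d -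
      (-(8 - (i + 1)) ^ 2 * a + (3 * (i + 1) ^ 2 - 32 * (i + 1)) * b +
        (64 + 16 * (i + 1) - 3 * (i + 1) ^ 2) * c + (i + 1) ^ 2 * d)) ≤
      2 * (y0 * p1 + y1 * p0 - y0 * y1 - 38010 * w) + (2 * (y1 * p1) - y1 * y1 - 38010 * w))
    (h3 : 1024 * ((8 - (i + 1)) ^ 3 * a + (2048 - 48 * (i + 1) ^ 2 + 3 * (i + 1) ^ 3) * b +
      (512 + 192 * (i + 1) + 24 * (i + 1) ^ 2 - 3 * (i + 1) ^ 3) * c + (i + 1) ^ 3 * d) ≤
      3 * (2 * (y1 * p1) - y1 * y1 - 38010 * w)) :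
    (a / 2 ^ 40 * (1 - (i + s) / 8) ^ 3 + b / 2 ^ 40 * (4 - 6 * ((i + s) / 8) ^ 2 + 3 * ((i + s) / 8) ^ 3) +
      c / 2 ^ 40 * (1 + 3 * ((i + s) / 8) + 3 * ((i + s) / 8) ^ 2 - 3 * ((i + s) / 8) ^ 3) +
      d / 2 ^ 40 * ((i + s) / 8) ^ 3) / 6 ≤
      2 * ((y0 * (1 - s) + y1 * s) / 2 ^ 30) * φ - ((y0 * (1 - s) + y1 * s) / 2 ^ 30) ^ 2 := by
  set y : ℝ := (y0 * (1 - s) + y1 * s) / 2 ^ 30 with hy
  set p : ℝ := (p0 * (1 - s) + p1 * s) / 2 ^ 30 with hp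
  have hyw : |y| ≤ w / 2 ^ 30 := by
    rw [hy, abs_div, abs_of_pos (by norm_num : (0 : ℝ) < 2 ^ 30)]
    apply div_le_div_of_nonneg_right _ (by norm_num)
    calc |y0 * (1 - s) + y1 * s| ≤ |y0 * (1 - s)| + |y1 * s| := abs_add_le _ _
      _ = |y0| * (1 - s) + |y1| * s := by
        rw [abs_mul, abs_mul, abs_of_nonneg (by linarith : 0 ≤ 1 - s), abs_of_nonneg hs0]
      _ ≤ w * (1 - s) + w * s := add_le_add (mul_le_mul_of_nonneg_right hw0 (by linarith))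
          (mul_le_mul_of_nonneg_right hw1 hs0)
      _ = w := by ring
  have hlow : 2 * y * p - y ^ 2 - 2 * (w / 2 ^ 30) * (19005 / 2 ^ 30) ≤ 2 * y * φ - y ^ 2 := by
    have h5 : |y * (φ - p)| ≤ w / 2 ^ 30 * (19005 / 2 ^ 30) := by
      rw [abs_mul]
      exact mul_le_mul hyw hφ (abs_nonneg _) ((abs_nonneg _).trans hyw)
    have h6 := (abs_le.mp h5).1
    linarith
  refine le_trans ?_ hlow
  have hs1' : 0 ≤ 1 - s := by linarith
  have m0 := mul_le_mul_of_nonneg_right h0 (pow_nonneg hs1' 3)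
  have m1 := mul_le_mul_of_nonneg_right h1 (mul_nonneg (pow_nonneg hs1' 2) hs0)
  have m2 := mul_le_mul_of_nonneg_right h2 (mul_nonneg hs1' (pow_nonneg hs0 2))
  have m3 := mul_le_mul_of_nonneg_right h3 (pow_nonneg hs0 3)
  have key : 0 ≤ (2 * y * p - y ^ 2 - 2 * (w / 2 ^ 30) * (19005 / 2 ^ 30)) -
      (a / 2 ^ 40 * (1 - (i + s) / 8) ^ 3 + b / 2 ^ 40 * (4 - 6 * ((i + s) / 8) ^ 2 + 3 * ((i + s) / 8) ^ 3) +
      c / 2 ^ 40 * (1 + 3 * ((i + s) / 8) + 3 * ((i + s) / 8) ^ 2 - 3 * ((i + s) / 8) ^ 3) +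
      d / 2 ^ 40 * ((i + s) / 8) ^ 3) / 6 := by
    have e : (2 * y * p - y ^ 2 - 2 * (w / 2 ^ 30) * (19005 / 2 ^ 30)) -
      (a / 2 ^ 40 * (1 - (i + s) / 8) ^ 3 + b / 2 ^ 40 * (4 - 6 * ((i + s) / 8) ^ 2 + 3 * ((i + s) / 8) ^ 3) +
      c / 2 ^ 40 * (1 + 3 * ((i + s) / 8) + 3 * ((i + s) / 8) ^ 2 - 3 * ((i + s) / 8) ^ 3) +
      d / 2 ^ 40 * ((i + s) / 8) ^ 3) / 6 =
      (1 / (3 * 2 ^ 60)) * (
      (3 * (2 * (y0 * p0) - y0 * y0 - 38010 * w) * (1 - s) ^ 3 -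
        1024 * ((8 - i) ^ 3 * a + (2048 - 48 * i ^ 2 + 3 * i ^ 3) * b +
      (512 + 192 * i + 24 * i ^ 2 - 3 * i ^ 3) * c + i ^ 3 * d) * (1 - s) ^ 3) +
      3 * (((2 * (y0 * p0) - y0 * y0 - 38010 * w) + 2 * (y0 * p1 + y1 * p0 - y0 * y1 - 38010 * w)) *
        ((1 - s) ^ 2 * s) - 1024 * ((8 - i) ^ 3 * a + (2048 - 48 * i ^ 2 + 3 * i ^ 3) * b +
      (512 + 192 * i + 24 * i ^ 2 - 3 * i ^ 3) * c + i ^ 3 * d +
      (-(8 - i) ^ 2 * a + (3 * i ^ 2 - 32 * i) * b + (64 + 16 * i - 3 * i ^ 2) * c + i ^ 2 * d)) *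
        ((1 - s) ^ 2 * s)) +
      3 * ((2 * (y0 * p1 + y1 * p0 - y0 * y1 - 38010 * w) + (2 * (y1 * p1) - y1 * y1 - 38010 * w)) *
        ((1 - s) * s ^ 2) - 1024 * ((8 - (i + 1)) ^ 3 * a + (2048 - 48 * (i + 1) ^ 2 + 3 * (i + 1) ^ 3) * b +
      (512 + 192 * (i + 1) + 24 * (i + 1) ^ 2 - 3 * (i + 1) ^ 3) * c + (i + 1) ^ 3 * d -
      (-(8 - (i + 1)) ^ 2 * a + (3 * (i + 1) ^ 2 - 32 * (i + 1)) * b +
        (64 + 16 * (i + 1) - 3 * (i + 1) ^ 2) * c + (i + 1) ^ 2 * d)) * ((1 - s) * s ^ 2)) +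
      (3 * (2 * (y1 * p1) - y1 * y1 - 38010 * w) * s ^ 3 -
        1024 * ((8 - (i + 1)) ^ 3 * a + (2048 - 48 * (i + 1) ^ 2 + 3 * (i + 1) ^ 3) * b +
      (512 + 192 * (i + 1) + 24 * (i + 1) ^ 2 - 3 * (i + 1) ^ 3) * c + (i + 1) ^ 3 * d) * s ^ 3)) := by
      rw [hy, hp]
      ring
    rw [e]
    apply mul_nonneg (by norm_num)
    linarith
  linarith

end Pool.Agent.Helper42.RH
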