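import Pool.Graph.R_seed8.H370R2.Expl1

open Complex Filter Topology Set MeasureTheory
open scoped BigOperators ComplexConjugate

namespace Pool.Agent.Helper42.RH

open H370 H370.GramAux H370.Expl

/-- Taylor bounds -/
lemma trig12 {β : ℝ} (h0 : 0 ≤ β) (h1 : β ≤ 1) :
    |Real.cos β - (1 - β ^ 2 / 2 + β ^ 4 / 24 - β ^ 6 / 720 + β ^ 8 / 40320 - β ^ 10 / 3628800)| ≤
      β ^ 12 / 440000000 ∧
    |Real.sin β - (β - β ^ 3 / 6 + β ^ 5 / 120 - β ^ 7 / 5040 + β ^ 9 / 362880 - β ^ 11 / 39916800)| ≤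
      β ^ 12 / 440000000 := by
  have hn : ‖(β : ℂ) * I‖ = β := by
    rw [norm_mul, Complex.norm_I, mul_one, Complex.norm_real, Real.norm_of_nonneg h0]
  have h := Complex.exp_bound (x := (β : ℂ) * I) (by rw [hn]; exact h1) (n := 12) (by norm_num)
  rw [hn] at h
  have hb : β ^ 12 * ((Nat.succ 12 : ℝ) * ((Nat.factorial 12 : ℝ) * (12 : ℕ))⁻¹) ≤
      β ^ 12 / 440000000 := by
    rw [div_eq_mul_inv]
    apply mul_le_mul_of_nonneg_left _ (by positivity)
    norm_num [Nat.factorial]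
  have h2 := h.trans hb
  have hsum : ∑ m ∈ Finset.range 12, ((β : ℂ) * I) ^ m / (m.factorial : ℂ) =
      (((1 - β ^ 2 / 2 + β ^ 4 / 24 - β ^ 6 / 720 + β ^ 8 / 40320 - β ^ 10 / 3628800 : ℝ)) : ℂ) +
        ((β - β ^ 3 / 6 + β ^ 5 / 120 - β ^ 7 / 5040 + β ^ 9 / 362880 - β ^ 11 / 39916800 : ℝ) : ℂ) * I := by
    have i3 : I ^ 3 = -I := Complex.I_pow_three
    have i4 : I ^ 4 = 1 := Complex.I_pow_four
    have i5 : I ^ 5 = I := by rw [pow_succ, i4, one_mul]
    have i6 : I ^ 6 = -1 := by rw [show (6 : ℕ) = 4 + 2 from rfl, pow_add, i4, I_sq, one_mul]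
    have i7 : I ^ 7 = -I := by rw [show (7 : ℕ) = 4 + 3 from rfl, pow_add, i4, i3, one_mul]
    have i8 : I ^ 8 = 1 := by rw [show (8 : ℕ) = 4 + 4 from rfl, pow_add, i4, one_mul]
    have i9 : I ^ 9 = I := by rw [pow_succ, i8, one_mul]
    have i10 : I ^ 10 = -1 := by rw [show (10 : ℕ) = 8 + 2 from rfl, pow_add, i8, I_sq, one_mul]
    have i11 : I ^ 11 = -I := by rw [show (11 : ℕ) = 8 + 3 from rfl, pow_add, i8, i3, one_mul]
    simp only [Finset.sum_range_succ, Finset.sum_range_zero, mul_pow, pow_zero, pow_one,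
      i3, i4, i5, i6, i7, i8, i9, i10, i11, I_sq, Nat.factorial]
    push_cast
    ring
  rw [hsum, Complex.exp_mul_I, ← Complex.ofReal_cos, ← Complex.ofReal_sin] at h2
  have h3 : ((Real.cos β : ℂ) + (Real.sin β : ℂ) * I) -
      ((((1 - β ^ 2 / 2 + β ^ 4 / 24 - β ^ 6 / 720 + β ^ 8 / 40320 - β ^ 10 / 3628800 : ℝ)) : ℂ) +
        ((β - β ^ 3 / 6 + β ^ 5 / 120 - β ^ 7 / 5040 + β ^ 9 / 362880 - β ^ 11 / 39916800 : ℝ) : ℂ) * I) =
      ((Real.cos β - (1 - β ^ 2 / 2 + β ^ 4 / 24 - β ^ 6 / 720 + β ^ 8 / 40320 - β ^ 10 / 3628800) : ℝ) : ℂ) +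
      ((Real.sin β - (β - β ^ 3 / 6 + β ^ 5 / 120 - β ^ 7 / 5040 + β ^ 9 / 362880 -
        β ^ 11 / 39916800) : ℝ) : ℂ) * I := by
    push_cast; ring
  rw [h3] at h2
  constructor
  · have h4 := (Complex.abs_re_le_norm _).trans h2
    simpa only [Complex.add_re, Complex.ofReal_re, Complex.mul_re, Complex.ofReal_im, Complex.I_re,
      Complex.I_im, mul_zero, zero_mul, sub_zero, add_zero] using h4
  · have h4 := (Complex.abs_im_le_norm _).trans h2
    simpa only [Complex.add_im, Complex.ofReal_re, Complex.mul_im, Complex.ofReal_im, Complex.I_re,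
      Complex.I_im, mul_zero, mul_one, zero_mul, zero_add, add_zero] using h4

/-- precise numerics at `1/√2` -/
lemma num_half : |Real.cos (1 / Real.sqrt 2) - (1 - 1 / 4 + 1 / 96 - 1 / 5760 + 1 / 645120 - 1 / 116121600)| ≤
      1 / 10 ^ 10 ∧
    |Real.sqrt 2 * Real.sin (1 / Real.sqrt 2) -
      (1 - 1 / 12 + 1 / 480 - 1 / 40320 + 1 / 5806080 - 1 / 1277337600)| ≤ 1 / 10 ^ 10 := by
  set β : ℝ := 1 / Real.sqrt 2 with hβ
  have hs2 : Real.sqrt 2 ^ 2 = 2 := Real.sq_sqrt (by norm_num)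
  have hs0 : 0 < Real.sqrt 2 := by positivity
  have hβ0 : 0 < β := by positivity
  have hβ2 : β ^ 2 = 1 / 2 := by rw [hβ, div_pow, hs2]; norm_num
  have hβs : Real.sqrt 2 * β = 1 := by rw [hβ]; field_simp
  have hs3 : Real.sqrt 2 ≤ 1.5 := by
    rw [Real.sqrt_le_left (by norm_num)]; norm_num
  have hβ1 : β ≤ 1 := by nlinarith
  obtain ⟨h1, h2⟩ := trig12 hβ0.le hβ1
  have e4 : β ^ 4 = 1 / 4 := by rw [show β ^ 4 = (β ^ 2) ^ 2 by ring, hβ2]; norm_num
  have e6 : β ^ 6 = 1 / 8 := by rw [show β ^ 6 = (β ^ 2) ^ 3 by ring, hβ2]; norm_num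
  have e8 : β ^ 8 = 1 / 16 := by rw [show β ^ 8 = (β ^ 2) ^ 4 by ring, hβ2]; norm_num
  have e10 : β ^ 10 = 1 / 32 := by rw [show β ^ 10 = (β ^ 2) ^ 5 by ring, hβ2]; norm_num
  have e12 : β ^ 12 = 1 / 64 := by rw [show β ^ 12 = (β ^ 2) ^ 6 by ring, hβ2]; norm_num
  have e3 : β ^ 3 = β / 2 := by rw [show β ^ 3 = (β ^ 2) * β by ring, hβ2]; ring
  have e5 : β ^ 5 = β / 4 := by rw [show β ^ 5 = (β ^ 4) * β by ring, e4]; ring
  have e7 : β ^ 7 = β / 8 := by rw [show β ^ 7 = (β ^ 6) * β by ring, e6]; ring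
  have e9 : β ^ 9 = β / 16 := by rw [show β ^ 9 = (β ^ 8) * β by ring, e8]; ring
  have e11 : β ^ 11 = β / 32 := by rw [show β ^ 11 = (β ^ 10) * β by ring, e10]; ring
  rw [hβ2, e4, e6, e8, e10, e12] at h1
  rw [e3, e5, e7, e9, e11, e12] at h2
  constructor
  · refine le_trans (le_of_eq ?_) (h1.trans (by norm_num))
    congr 1
    ring
  · have h5 : Real.sqrt 2 * Real.sin β - (1 - 1 / 12 + 1 / 480 - 1 / 40320 + 1 / 5806080 - 1 / 1277337600) =
        Real.sqrt 2 * (Real.sin β - (β - β / 2 / 6 + β / 4 / 120 - β / 8 / 5040 + β / 16 / 362880 -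
          β / 32 / 39916800)) := by
      linear_combination (1 - 1 / 12 + 1 / 480 - 1 / 40320 + 1 / 5806080 - 1 / 1277337600) * hβs
    rw [h5, abs_mul, abs_of_pos hs0]
    calc Real.sqrt 2 * |Real.sin β - (β - β / 2 / 6 + β / 4 / 120 - β / 8 / 5040 + β / 16 / 362880 -
          β / 32 / 39916800)| ≤ 1.5 * (1 / 64 / 440000000) :=
        mul_le_mul hs3 h2 (abs_nonneg _) (by norm_num)
      _ ≤ 1 / 10 ^ 10 := by norm_num

/-- `qq` to nine digits -/
lemma qq_num : |qq - 1328716087935 / 2 ^ 40| ≤ 1 / 10 ^ 9 := by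
  obtain ⟨h1, h2⟩ := num_half
  rw [abs_le] at h1 h2
  have hc := cos_half_pos
  unfold qq
  rw [abs_le]
  constructor
  · rw [le_sub_iff_add_le, le_div_iff₀ hc]
    norm_num at h1 h2 ⊢
    linarith [h1.1, h1.2, h2.1, h2.2]
  · rw [sub_le_iff_le_add, div_le_iff₀ hc]
    norm_num at h1 h2 ⊢
    linarith [h1.1, h1.2, h2.1, h2.2]

/-- chords of the cosine -/
lemma cos_chord (a b t : ℝ) (h0 : 0 ≤ t) (h1 : t ≤ 1) :
    |Real.cos ((1 - t) * a + t * b) - ((1 - t) * Real.cos a + t * Real.cos b)| ≤ (b - a) ^ 2 / 8 := by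
  have hs : t * (1 - t) ≤ 1 / 4 := by nlinarith [sq_nonneg (2 * t - 1)]
  have hsq : t * (1 - t) * (b - a) ^ 2 / 2 ≤ (b - a) ^ 2 / 8 := by
    have := mul_le_mul_of_nonneg_right hs (sq_nonneg (b - a))
    linarith
  have c1 : ConvexOn ℝ univ (fun x : ℝ => x ^ 2 / 2 + Real.cos x) := by
    have d1 : deriv (fun x : ℝ => x ^ 2 / 2 + Real.cos x) = fun x => x - Real.sin x := by
      ext x
      have : HasDerivAt (fun x : ℝ => x ^ 2 / 2 + Real.cos x) (x - Real.sin x) x := by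
        have h := (((hasDerivAt_id x).pow 2).div_const 2).add (Real.hasDerivAt_cos x)
        refine h.congr_deriv ?_
        simp; ring
      exact this.deriv
    have d2 : deriv (fun x : ℝ => x - Real.sin x) = fun x => 1 - Real.cos x := by
      ext x
      exact ((hasDerivAt_id x).sub (Real.hasDerivAt_sin x)).deriv
    apply convexOn_univ_of_deriv2_nonneg
    · fun_prop
    · rw [d1]; fun_prop
    · intro x
      simp only [Function.iterate_succ, Function.iterate_zero, Function.comp]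
      rw [d1]
      simp only [id]
      rw [d2]
      linarith [Real.cos_le_one x]
  have c2 : ConvexOn ℝ univ (fun x : ℝ => x ^ 2 / 2 - Real.cos x) := by
    have d1 : deriv (fun x : ℝ => x ^ 2 / 2 - Real.cos x) = fun x => x + Real.sin x := by
      ext x
      have : HasDerivAt (fun x : ℝ => x ^ 2 / 2 - Real.cos x) (x + Real.sin x) x := by
        have h := (((hasDerivAt_id x).pow 2).div_const 2).sub (Real.hasDerivAt_cos x)
        refine h.congr_deriv ?_
        simp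
      exact this.deriv
    have d2 : deriv (fun x : ℝ => x + Real.sin x) = fun x => 1 + Real.cos x := by
      ext x
      exact ((hasDerivAt_id x).add (Real.hasDerivAt_sin x)).deriv
    apply convexOn_univ_of_deriv2_nonneg
    · fun_prop
    · rw [d1]; fun_prop
    · intro x
      simp only [Function.iterate_succ, Function.iterate_zero, Function.comp]
      rw [d1]
      simp only [id]
      rw [d2]
      linarith [Real.neg_one_le_cos x]
  have g1 := c1.2 (mem_univ a) (mem_univ b) (by linarith : 0 ≤ 1 - t) h0 (by ring)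
  have g2 := c2.2 (mem_univ a) (mem_univ b) (by linarith : 0 ≤ 1 - t) h0 (by ring)
  simp only [smul_eq_mul] at g1 g2
  have e : (1 - t) * (a ^ 2 / 2) + t * (b ^ 2 / 2) - ((1 - t) * a + t * b) ^ 2 / 2 =
      t * (1 - t) * (b - a) ^ 2 / 2 := by ring
  rw [abs_le]
  constructor <;> linarith

/-- chords of the kernel -/
lemma KK_chord (a b t : ℝ) (h0 : 0 ≤ t) (h1 : t ≤ 1) :
    |KK ((1 - t) * a + t * b) - ((1 - t) * KK a + t * KK b)| ≤ 0.01134 * (b - a) ^ 2 := by
  have hg := g0_cont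
  have hden : 0.9187 ≤ Real.sqrt 2 * Real.sin (1 / Real.sqrt 2) := by
    obtain ⟨_, h2⟩ := num_half
    rw [abs_le] at h2
    have := h2.1
    norm_num at this ⊢
    linarith
  have i1 : ∀ z : ℝ, IntervalIntegrable (fun u => g0 u * Real.cos (z * u)) volume (-1 / 2) (1 / 2) := by
    intro z
    apply Continuous.intervalIntegrable
    fun_prop
  have e : KK ((1 - t) * a + t * b) - ((1 - t) * KK a + t * KK b) =
      ∫ u in (-1 / 2 : ℝ)..(1 / 2), g0 u * (Real.cos ((1 - t) * (a * u) + t * (b * u)) -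
        ((1 - t) * Real.cos (a * u) + t * Real.cos (b * u))) := by
    unfold KK
    rw [kap_re, kap_re, kap_re, ← intervalIntegral.integral_const_mul,
      ← intervalIntegral.integral_const_mul, ← intervalIntegral.integral_add ((i1 a).const_mul _)
      ((i1 b).const_mul _), ← intervalIntegral.integral_sub (i1 _)
      (((i1 a).const_mul _).add ((i1 b).const_mul _))]
    congr 1
    ext u
    rw [show ((1 - t) * a + t * b) * u = (1 - t) * (a * u) + t * (b * u) by ring]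
    ring
  rw [e]
  have hb : ∀ u ∈ Set.Icc (-1 / 2 : ℝ) (1 / 2), ‖g0 u * (Real.cos ((1 - t) * (a * u) + t * (b * u)) -
        ((1 - t) * Real.cos (a * u) + t * Real.cos (b * u)))‖ ≤
      (b - a) ^ 2 / (8 * 0.9187) * u ^ 2 := by
    intro u hu
    rw [Real.norm_eq_abs, abs_mul, abs_of_nonneg (g0_nonneg hu.1 hu.2)]
    have h3 := cos_chord (a * u) (b * u) t h0 h1
    have h4 : g0 u ≤ 1 / 0.9187 := by
      unfold g0
      rw [div_le_div_iff₀ den_pos (by norm_num)]
      have := Real.cos_le_one (Real.sqrt 2 * u)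
      nlinarith
    calc g0 u * |Real.cos ((1 - t) * (a * u) + t * (b * u)) -
        ((1 - t) * Real.cos (a * u) + t * Real.cos (b * u))| ≤ (1 / 0.9187) * ((b * u - a * u) ^ 2 / 8) :=
        mul_le_mul h4 h3 (abs_nonneg _) (by norm_num)
      _ = _ := by ring
  have h5 := intervalIntegral.norm_integral_le_of_norm_le (a := (-1 / 2 : ℝ)) (b := 1 / 2)
    (f := fun u => g0 u * (Real.cos ((1 - t) * (a * u) + t * (b * u)) -
        ((1 - t) * Real.cos (a * u) + t * Real.cos (b * u))))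
    (g := fun u => (b - a) ^ 2 / (8 * 0.9187) * u ^ 2) (μ := volume) (by norm_num)
    (Filter.Eventually.of_forall fun u hu => hb u ⟨hu.1.le, hu.2⟩)
    (by apply Continuous.intervalIntegrable; fun_prop)
  rw [Real.norm_eq_abs, intervalIntegral.integral_const_mul, integral_pow] at h5
  refine h5.trans ?_
  have h6 : 0 ≤ (b - a) ^ 2 := sq_nonneg _
  have e7 : (b - a) ^ 2 / (8 * 0.9187) * (((1 / 2 : ℝ) ^ (2 + 1) - (-1 / 2) ^ (2 + 1)) / ((2 : ℕ) + 1)) =
      (b - a) ^ 2 * (1 / (8 * 0.9187) / 12) := by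
    push_cast; ring
  rw [e7, mul_comm]
  apply mul_le_mul_of_nonneg_right _ h6
  norm_num

end Pool.Agent.Helper42.RH
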